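import Pool.Agent.TH858.GP.Dense2
set_option autoImplicit false

/-! A discrete Bernstein inequality for trigonometric sums on `ℤ/N` with small frequencies. -/

namespace Pool.Agent.V1121.PF.QP

open Finset Complex Pool.Agent.TH858 Pool.Agent.TH858.GP
open scoped ComplexConjugate

variable {N : ℕ} [NeZero N]

theorem orth (z : ZMod N) : ∑ s : ZMod N, ψ (z * s) = if z = 0 then (N : ℂ) else 0 := by
  have := AddChar.sum_mulShift (R' := ℂ) z (ZMod.isPrimitive_stdAddChar N)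
  rw [ZMod.card] at this
  have e : ∑ s : ZMod N, ψ (z * s) = ∑ s : ZMod N, ψ (s * z) :=
    sum_congr rfl fun s _ => by rw [mul_comm]
  rw [e, this]
  split_ifs <;> simp

/-- Parseval -/
theorem parseval (I : Finset (ZMod N)) (u : ZMod N → ℂ) :
    ∑ s : ZMod N, ‖∑ i ∈ I, u i * ψ (-(i * s))‖ ^ 2 = N * ∑ i ∈ I, ‖u i‖ ^ 2 := by
  classical
  have h1 : ∀ s : ZMod N, ((‖∑ i ∈ I, u i * ψ (-(i * s))‖ ^ 2 : ℝ) : ℂ) =
      ∑ i ∈ I, ∑ j ∈ I, u i * conj (u j) * ψ ((j - i) * s) := by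
    intro s
    have e1 : ((‖∑ i ∈ I, u i * ψ (-(i * s))‖ ^ 2 : ℝ) : ℂ) =
        (∑ i ∈ I, u i * ψ (-(i * s))) * conj (∑ j ∈ I, u j * ψ (-(j * s))) := by
      rw [Complex.mul_conj, Complex.normSq_eq_norm_sq]
    rw [e1, map_sum, sum_mul_sum]
    refine sum_congr rfl fun i _ => sum_congr rfl fun j _ => ?_
    rw [map_mul, ψ_neg (j * s), Complex.conj_conj]
    have e2 : ψ ((j - i) * s) = ψ (-(i * s)) * ψ (j * s) := by rw [← ψ_add]; congr 1; ring
    rw [e2]; ring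
  have h2 : ((∑ s : ZMod N, ‖∑ i ∈ I, u i * ψ (-(i * s))‖ ^ 2 : ℝ) : ℂ) =
      ((N * ∑ i ∈ I, ‖u i‖ ^ 2 : ℝ) : ℂ) := by
    rw [Complex.ofReal_sum, sum_congr rfl fun s _ => h1 s, sum_comm]
    have h3 : ∀ i ∈ I, ∑ s : ZMod N, ∑ j ∈ I, u i * conj (u j) * ψ ((j - i) * s) =
        N * ((‖u i‖ ^ 2 : ℝ) : ℂ) := by
      intro i hi
      rw [sum_comm]
      have h4 : ∀ j ∈ I, ∑ s : ZMod N, u i * conj (u j) * ψ ((j - i) * s) =
          if j = i then N * ((‖u i‖ ^ 2 : ℝ) : ℂ) else 0 := by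
        intro j _
        rw [← mul_sum, orth]
        by_cases h : j = i
        · rw [if_pos h, if_pos (sub_eq_zero.2 h), h, Complex.mul_conj, Complex.normSq_eq_norm_sq]
          ring
        · rw [if_neg h, if_neg (sub_ne_zero.2 h), mul_zero]
      rw [sum_congr rfl h4, sum_ite_eq' I i, if_pos hi]
    rw [sum_congr rfl h3, ← mul_sum]
    push_cast
    rfl
  exact_mod_cast h2

/-- the interval of residues -/
noncomputable def seg (N W : ℕ) : Finset (ZMod N) := (Icc (-(W : ℤ)) W).image fun z : ℤ => (z : ZMod N)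

omit [NeZero N] in
theorem mem_seg {W : ℕ} {x : ZMod N} : x ∈ seg N W ↔ ∃ z : ℤ, |z| ≤ W ∧ (z : ZMod N) = x := by
  unfold seg
  rw [mem_image]
  constructor
  · rintro ⟨z, hz, rfl⟩
    rw [mem_Icc] at hz
    exact ⟨z, abs_le.2 hz, rfl⟩
  · rintro ⟨z, hz, rfl⟩
    exact ⟨z, mem_Icc.2 (abs_le.1 hz), rfl⟩

omit [NeZero N] in
theorem card_seg_le (W : ℕ) : (seg N W).card ≤ 2 * W + 1 := by
  unfold seg
  refine card_image_le.trans ?_
  rw [Int.card_Icc]
  omega

omit [NeZero N] in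
theorem card_seg (W : ℕ) (hW : 2 * W < N) : (seg N W).card = 2 * W + 1 := by
  unfold seg
  rw [card_image_of_injOn, Int.card_Icc]
  · omega
  · intro x hx y hy hxy
    rw [mem_coe, mem_Icc] at hx hy
    have h1 : ((x - y : ℤ) : ZMod N) = 0 := by push_cast; exact sub_eq_zero.2 hxy
    rw [ZMod.intCast_zmod_eq_zero_iff_dvd] at h1
    have h2 : |x - y| < (N : ℤ) := by
      rw [abs_lt]; constructor <;> omega
    have h3 := Int.eq_zero_of_abs_lt_dvd h1 h2
    omega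

theorem norm_seg {W : ℕ} {x : ZMod N} (hx : x ∈ seg N W) : ‖ψ x - 1‖ ≤ 2 * Real.pi * (W / N) := by
  obtain ⟨z, hz, rfl⟩ := mem_seg.1 hx
  refine (norm_ψ_sub_one_le _).trans ?_
  refine mul_le_mul_of_nonneg_left ?_ (by positivity)
  have hN : (0 : ℝ) < N := Nat.cast_pos.mpr (NeZero.pos N)
  rw [← CB.nint_eq_nn z _ rfl]
  have h5 := nint_add_le 0 ((z : ℝ) / N)
  have h6 : CB.nint 0 = 0 := by unfold CB.nint; simp
  rw [h6, zero_add, zero_add] at h5
  refine h5.trans ?_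
  rw [abs_div, abs_of_pos hN]
  refine div_le_div_of_nonneg_right ?_ hN.le
  exact_mod_cast hz

set_option maxHeartbeats 1000000 in
/-- **Bernstein's inequality.** -/
theorem bernstein {ι : Type*} (W : ℕ) (hW : 2 * W < N) (J' : Finset ι) (c : ι → ℂ) (r : ι → ZMod N)
    (hr : ∀ i ∈ J', r i ∈ seg N W) (Bd : ℝ) (hB : ∀ s : ZMod N, ‖∑ i ∈ J', c i * ψ (r i * s)‖ ≤ Bd) :
    ‖∑ i ∈ J', c i * (ψ (r i) - 1)‖ ≤ 9 * Real.pi * (W / N) * Bd := by
  classical
  have hN : (0 : ℝ) < N := Nat.cast_pos.mpr (NeZero.pos N)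
  have hBd : 0 ≤ Bd := (norm_nonneg _).trans (hB 0)
  obtain ⟨I, hI⟩ : ∃ I, I = seg N (2 * W) := ⟨_, rfl⟩
  obtain ⟨J, hJ⟩ : ∃ J, J = seg N W := ⟨_, rfl⟩
  have hJc : (J.card : ℝ) = 2 * W + 1 := by rw [hJ, card_seg W hW]; push_cast; ring
  have hIc : (I.card : ℝ) ≤ 4 * W + 1 := by
    have := card_seg_le (N := N) (2 * W)
    rw [hI]
    have h2 : ((seg N (2 * W)).card : ℝ) ≤ ((2 * (2 * W) + 1 : ℕ) : ℝ) := by exact_mod_cast this
    push_cast at h2
    linarith
  have hJpos : (0 : ℝ) < J.card := by rw [hJc]; positivity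
  -- the kernel
  obtain ⟨κ, hκ⟩ : ∃ κ : ZMod N → ℂ, κ = fun s =>
    (∑ i ∈ I, ∑ j ∈ J, (ψ (i + j) - 1) * ψ (-((i + j) * s))) / (N * J.card) := ⟨_, rfl⟩
  have hker : ∀ x ∈ J, ∑ s : ZMod N, κ s * ψ (x * s) = ψ x - 1 := by
    intro x hx
    have h1 : ∑ s : ZMod N, κ s * ψ (x * s) =
        (∑ i ∈ I, ∑ j ∈ J, (ψ (i + j) - 1) * ∑ s : ZMod N, ψ ((x - i - j) * s)) / (N * J.card) := by
      rw [hκ]
      have e1 : ∀ s : ZMod N, (∑ i ∈ I, ∑ j ∈ J, (ψ (i + j) - 1) * ψ (-((i + j) * s))) / (N * J.card) *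
          ψ (x * s) = (∑ i ∈ I, ∑ j ∈ J, (ψ (i + j) - 1) * ψ ((x - i - j) * s)) / (N * J.card) := by
        intro s
        rw [div_mul_eq_mul_div, sum_mul]
        congr 1
        refine sum_congr rfl fun i _ => ?_
        rw [sum_mul]
        refine sum_congr rfl fun j _ => ?_
        rw [mul_assoc, ← ψ_add]
        congr 2
        ring
      rw [sum_congr rfl fun s _ => e1 s, ← sum_div]
      congr 1
      rw [sum_comm]
      refine sum_congr rfl fun i _ => ?_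
      rw [sum_comm]
      refine sum_congr rfl fun j _ => ?_
      rw [mul_sum]
    rw [h1, sum_comm]
    have h2 : ∀ j ∈ J, ∑ i ∈ I, (ψ (i + j) - 1) * ∑ s : ZMod N, ψ ((x - i - j) * s) =
        (ψ x - 1) * N := by
      intro j hj
      have hmem : x - j ∈ I := by
        rw [hJ, mem_seg] at hx hj
        obtain ⟨z, hz, rfl⟩ := hx
        obtain ⟨z', hz', rfl⟩ := hj
        rw [hI, mem_seg]
        refine ⟨z - z', ?_, by push_cast; rfl⟩
        refine (abs_sub _ _).trans ?_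
        push_cast
        linarith
      have h3 : ∀ i ∈ I, (ψ (i + j) - 1) * ∑ s : ZMod N, ψ ((x - i - j) * s) =
          if i = x - j then (ψ x - 1) * N else 0 := by
        intro i _
        rw [orth]
        by_cases h : i = x - j
        · rw [if_pos h, if_pos (by rw [h]; ring), h]
          congr 3
          ring
        · rw [if_neg h, if_neg, mul_zero]
          intro h0
          apply h
          linear_combination -h0
      rw [sum_congr rfl h3, sum_ite_eq' I (x - j), if_pos hmem]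
    rw [sum_congr rfl h2, sum_const, nsmul_eq_mul]
    have h4 : (J.card : ℂ) ≠ 0 := by exact_mod_cast hJpos.ne'
    have h5 : (N : ℂ) ≠ 0 := by exact_mod_cast hN.ne'
    field_simp
  -- the `L¹` norm of the kernel
  obtain ⟨η, hη⟩ : ∃ η : ℝ, η = 2 * Real.pi * (W / N) := ⟨_, rfl⟩
  have hη0 : 0 ≤ η := by rw [hη]; positivity
  have hkn : ∑ s : ZMod N, ‖κ s‖ ≤ 9 * Real.pi * (W / N) := by
    rcases Nat.eq_zero_or_pos W with hW0 | hWpos
    · -- degenerate case
      have hI0 : I = {0} := by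
        ext x
        rw [hI, hW0, mem_seg, mem_singleton]
        constructor
        · rintro ⟨z, hz, rfl⟩
          have : z = 0 := by
            have := abs_le.1 hz
            simp at this
            omega
          rw [this]; simp
        · rintro rfl
          exact ⟨0, by simp, by simp⟩
      have hJ0 : J = {0} := by
        ext x
        rw [hJ, hW0, mem_seg, mem_singleton]
        constructor
        · rintro ⟨z, hz, rfl⟩
          have : z = 0 := by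
            have := abs_le.1 hz
            simp at this
            omega
          rw [this]; simp
        · rintro rfl
          exact ⟨0, by simp, by simp⟩
      rw [hκ, hI0, hJ0, hW0]
      simp
    · have hηpos : 0 < η := by
        rw [hη]
        have : (0 : ℝ) < W := by exact_mod_cast hWpos
        positivity
      obtain ⟨U₁, hU₁⟩ : ∃ U₁ : ZMod N → ℂ, U₁ = fun s => ∑ i ∈ I, (ψ i - 1) * ψ (-(i * s)) := ⟨_, rfl⟩
      obtain ⟨U₂, hU₂⟩ : ∃ U₂ : ZMod N → ℂ, U₂ = fun s => ∑ j ∈ J, ψ j * ψ (-(j * s)) := ⟨_, rfl⟩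
      obtain ⟨U₃, hU₃⟩ : ∃ U₃ : ZMod N → ℂ, U₃ = fun s => ∑ i ∈ I, 1 * ψ (-(i * s)) := ⟨_, rfl⟩
      obtain ⟨U₄, hU₄⟩ : ∃ U₄ : ZMod N → ℂ, U₄ = fun s => ∑ j ∈ J, (ψ j - 1) * ψ (-(j * s)) := ⟨_, rfl⟩
      have hsplit : ∀ s, κ s = (U₁ s * U₂ s + U₃ s * U₄ s) / (N * J.card) := by
        intro s
        rw [hκ, hU₁, hU₂, hU₃, hU₄]
        simp only
        congr 1
        rw [sum_mul_sum, sum_mul_sum, ← sum_add_distrib]
        refine sum_congr rfl fun i _ => ?_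
        rw [← sum_add_distrib]
        refine sum_congr rfl fun j _ => ?_
        have e1 : ψ (-((i + j) * s)) = ψ (-(i * s)) * ψ (-(j * s)) := by rw [← ψ_add]; congr 1; ring
        rw [e1, ψ_add i j]
        ring
      have p1 : ∑ s, ‖U₁ s‖ ^ 2 ≤ N * (I.card * (2 * η) ^ 2) := by
        rw [hU₁, parseval]
        refine mul_le_mul_of_nonneg_left ?_ hN.le
        rw [← nsmul_eq_mul]
        refine sum_le_card_nsmul _ _ _ fun i hi => ?_
        refine pow_le_pow_left₀ (norm_nonneg _) ?_ 2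
        rw [hI] at hi
        refine (norm_seg hi).trans (le_of_eq ?_)
        rw [hη]; push_cast; ring
      have p2 : ∑ s, ‖U₂ s‖ ^ 2 = N * J.card := by
        rw [hU₂, parseval]
        congr 1
        simp [ψ_norm]
      have p3 : ∑ s, ‖U₃ s‖ ^ 2 = N * I.card := by
        rw [hU₃, parseval]
        congr 1
        simp
      have p4 : ∑ s, ‖U₄ s‖ ^ 2 ≤ N * (J.card * η ^ 2) := by
        rw [hU₄, parseval]
        refine mul_le_mul_of_nonneg_left ?_ hN.le
        rw [← nsmul_eq_mul]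
        refine sum_le_card_nsmul _ _ _ fun i hi => ?_
        refine pow_le_pow_left₀ (norm_nonneg _) ?_ 2
        rw [hJ] at hi
        rw [hη]
        exact norm_seg hi
      have hIJ : (I.card : ℝ) ≤ 2 * J.card := by rw [hJc]; linarith
      have hpt : ∀ s, ‖κ s‖ ≤ ((‖U₁ s‖ ^ 2 / (2 * η) + 2 * η * ‖U₂ s‖ ^ 2) / 2 +
          (η * ‖U₃ s‖ ^ 2 + ‖U₄ s‖ ^ 2 / η) / 2) / (N * J.card) := by
        intro s
        rw [hsplit, norm_div]
        have e : ‖(N : ℂ) * (J.card : ℂ)‖ = N * J.card := by simp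
        rw [e]
        refine div_le_div_of_nonneg_right ?_ (by positivity)
        refine (norm_add_le _ _).trans ?_
        rw [norm_mul, norm_mul]
        have h1 : ‖U₁ s‖ * ‖U₂ s‖ ≤ (‖U₁ s‖ ^ 2 / (2 * η) + 2 * η * ‖U₂ s‖ ^ 2) / 2 := by
          have h2 : 0 ≤ (‖U₁ s‖ - 2 * η * ‖U₂ s‖) ^ 2 / (2 * η) := by positivity
          have h3 : (‖U₁ s‖ - 2 * η * ‖U₂ s‖) ^ 2 / (2 * η) =
              ‖U₁ s‖ ^ 2 / (2 * η) + 2 * η * ‖U₂ s‖ ^ 2 - 2 * (‖U₁ s‖ * ‖U₂ s‖) := by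
            field_simp
            ring
          linarith
        have h4 : ‖U₃ s‖ * ‖U₄ s‖ ≤ (η * ‖U₃ s‖ ^ 2 + ‖U₄ s‖ ^ 2 / η) / 2 := by
          have h2 : 0 ≤ (‖U₄ s‖ - η * ‖U₃ s‖) ^ 2 / η := by positivity
          have h3 : (‖U₄ s‖ - η * ‖U₃ s‖) ^ 2 / η =
              η * ‖U₃ s‖ ^ 2 + ‖U₄ s‖ ^ 2 / η - 2 * (‖U₃ s‖ * ‖U₄ s‖) := by
            field_simp
            ring
          linarith
        linarith
      calc ∑ s : ZMod N, ‖κ s‖ ≤ ∑ s : ZMod N, ((‖U₁ s‖ ^ 2 / (2 * η) + 2 * η * ‖U₂ s‖ ^ 2) / 2 +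
          (η * ‖U₃ s‖ ^ 2 + ‖U₄ s‖ ^ 2 / η) / 2) / (N * J.card) := sum_le_sum fun s _ => hpt s
        _ = (((∑ s, ‖U₁ s‖ ^ 2) / (2 * η) + 2 * η * ∑ s, ‖U₂ s‖ ^ 2) / 2 +
          (η * (∑ s, ‖U₃ s‖ ^ 2) + (∑ s, ‖U₄ s‖ ^ 2) / η) / 2) / (N * J.card) := by
            rw [← sum_div, sum_add_distrib, ← sum_div, ← sum_div, sum_add_distrib, sum_add_distrib,
              ← sum_div, ← mul_sum, ← mul_sum, ← sum_div]
        _ ≤ (((N * (I.card * (2 * η) ^ 2)) / (2 * η) + 2 * η * (N * J.card)) / 2 +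
          (η * (N * I.card) + (N * (J.card * η ^ 2)) / η) / 2) / (N * J.card) := by
            rw [p2, p3]
            gcongr
        _ = (3 * η * (I.card + J.card) / 2) / J.card := by
            field_simp
            ring
        _ ≤ (3 * η * (3 * J.card) / 2) / J.card := by
            gcongr
            linarith
        _ = 9 * Real.pi * (W / N) := by
            rw [hη]
            field_simp
            norm_num
  have hfin : ∑ i ∈ J', c i * (ψ (r i) - 1) = ∑ s : ZMod N, κ s * ∑ i ∈ J', c i * ψ (r i * s) := by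
    have h1 : ∀ i ∈ J', c i * (ψ (r i) - 1) = ∑ s : ZMod N, κ s * (c i * ψ (r i * s)) := by
      intro i hi
      rw [← hker (r i) (by rw [hJ]; exact hr i hi), mul_sum]
      exact sum_congr rfl fun s _ => by ring
    rw [sum_congr rfl h1, sum_comm]
    exact sum_congr rfl fun s _ => by rw [mul_sum]
  rw [hfin]
  calc ‖∑ s : ZMod N, κ s * ∑ i ∈ J', c i * ψ (r i * s)‖ ≤
        ∑ s : ZMod N, ‖κ s * ∑ i ∈ J', c i * ψ (r i * s)‖ := norm_sum_le _ _
    _ ≤ ∑ s : ZMod N, ‖κ s‖ * Bd := by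
        refine sum_le_sum fun s _ => ?_
        rw [norm_mul]
        exact mul_le_mul_of_nonneg_left (hB s) (norm_nonneg _)
    _ = (∑ s : ZMod N, ‖κ s‖) * Bd := by rw [sum_mul]
    _ ≤ _ := mul_le_mul_of_nonneg_right hkn hBd

end Pool.Agent.V1121.PF.QP
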