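import Mathlib
set_option autoImplicit false

/-! Almost periods by random sampling (the Croot–Sisask method), for the function counting
representations in `2A - 2A`, in a finite abelian group. -/

namespace Pool.Agent.V1121.PF.QP

open Finset
open scoped Pointwise

variable {G : Type*} [AddCommGroup G] [DecidableEq G]

/-- the indicator of `A + A` -/
noncomputable def ind (A : Finset G) (z : G) : ℝ := if z ∈ A + A then 1 else 0

/-- the average of the indicator of `A + A` over `y + A` -/
noncomputable def FF (A : Finset G) (y : G) : ℝ := (∑ a ∈ A, ind A (y + a)) / A.card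

/-- the average of `FF` over `x + A` -/
noncomputable def GG (A : Finset G) (x : G) : ℝ := (∑ a ∈ A, FF A (x + a)) / A.card

/-- the deviation of a sample -/
noncomputable def dev (A : Finset G) {k : ℕ} (l : Fin k → G) (y : G) : ℝ :=
  ∑ i, (ind A (y + l i) - FF A y)

theorem ind_nonneg (A : Finset G) (z : G) : 0 ≤ ind A z := by
  unfold ind; split_ifs <;> norm_num

theorem ind_le_one (A : Finset G) (z : G) : ind A z ≤ 1 := by
  unfold ind; split_ifs <;> norm_num

theorem FF_nonneg (A : Finset G) (y : G) : 0 ≤ FF A y :=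
  div_nonneg (sum_nonneg fun _ _ => ind_nonneg _ _) (Nat.cast_nonneg _)

theorem FF_le_one (A : Finset G) (y : G) : FF A y ≤ 1 := by
  unfold FF
  refine div_le_one_of_le₀ ?_ (Nat.cast_nonneg _)
  calc ∑ a ∈ A, ind A (y + a) ≤ ∑ _a ∈ A, (1 : ℝ) := sum_le_sum fun _ _ => ind_le_one _ _
    _ = A.card := by simp

theorem GG_nonneg (A : Finset G) (x : G) : 0 ≤ GG A x :=
  div_nonneg (sum_nonneg fun _ _ => FF_nonneg _ _) (Nat.cast_nonneg _)

theorem GG_le_one (A : Finset G) (x : G) : GG A x ≤ 1 := by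
  unfold GG
  refine div_le_one_of_le₀ ?_ (Nat.cast_nonneg _)
  calc ∑ a ∈ A, FF A (x + a) ≤ ∑ _a ∈ A, (1 : ℝ) := sum_le_sum fun _ _ => FF_le_one _ _
    _ = A.card := by simp

theorem GG_zero (A : Finset G) (hA : A.Nonempty) : GG A 0 = 1 := by
  have hApos : (0 : ℝ) < A.card := by exact_mod_cast hA.card_pos
  have h1 : ∀ a ∈ A, FF A (0 + a) = 1 := by
    intro a ha
    unfold FF
    have h2 : ∀ a' ∈ A, ind A (0 + a + a') = 1 := by
      intro a' ha'
      unfold ind
      rw [if_pos]
      rw [zero_add]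
      exact add_mem_add ha ha'
    rw [sum_congr rfl h2]
    simp only [sum_const, nsmul_eq_mul, mul_one]
    exact div_self hApos.ne'
  unfold GG
  rw [sum_congr rfl h1]
  simp only [sum_const, nsmul_eq_mul, mul_one]
  exact div_self hApos.ne'

theorem mem_of_GG (A : Finset G) (x : G) (h : 0 < GG A x) :
    ∃ a₁ ∈ A, ∃ a₂ ∈ A, ∃ a₃ ∈ A, ∃ a₄ ∈ A, x = a₁ + a₂ - a₃ - a₄ := by
  by_contra hcon
  push Not at hcon
  have h1 : GG A x = 0 := by
    unfold GG
    rw [sum_eq_zero, zero_div]
    intro a ha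
    unfold FF
    rw [sum_eq_zero, zero_div]
    intro a' ha'
    unfold ind
    rw [if_neg]
    intro hmem
    obtain ⟨a₁, h1, a₂, h2, h3⟩ := mem_add.1 hmem
    refine hcon a₁ h1 a₂ h2 a' ha' a ha ?_
    rw [h3]; abel
  rw [h1] at h
  exact lt_irrefl _ h

/-- Hoeffding's bound -/
theorem hoeff (A : Finset G) (k : ℕ) (lam : ℝ) (hlam : |lam| ≤ 1) (y : G) :
    ∑ l ∈ Fintype.piFinset (fun _ : Fin k => A), Real.exp (lam * dev A l y) ≤
      (A.card : ℝ) ^ k * Real.exp (lam ^ 2 * k) := by
  rcases A.eq_empty_or_nonempty with rfl | hA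
  · rcases Nat.eq_zero_or_pos k with rfl | hk
    · simp [dev]
    · have : Fintype.piFinset (fun _ : Fin k => (∅ : Finset G)) = ∅ := by
        rw [Finset.eq_empty_iff_forall_notMem]
        intro l hl
        have := Fintype.mem_piFinset.1 hl ⟨0, hk⟩
        exact absurd this (notMem_empty _)
      rw [this, sum_empty]
      positivity
  have hApos : (0 : ℝ) < A.card := by exact_mod_cast hA.card_pos
  have e1 : ∀ l : Fin k → G, Real.exp (lam * dev A l y) =
      ∏ i, Real.exp (lam * (ind A (y + l i) - FF A y)) := by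
    intro l
    unfold dev
    rw [mul_sum, Real.exp_sum]
  have e2 : ∑ l ∈ Fintype.piFinset (fun _ : Fin k => A), Real.exp (lam * dev A l y) =
      (∑ a ∈ A, Real.exp (lam * (ind A (y + a) - FF A y))) ^ k := by
    rw [sum_congr rfl fun l _ => e1 l]
    have := (Finset.prod_univ_sum (fun _ : Fin k => A)
      (fun _ a => Real.exp (lam * (ind A (y + a) - FF A y)))).symm
    rw [this, prod_const, card_univ, Fintype.card_fin]
  rw [e2]
  have hsum0 : ∑ a ∈ A, (ind A (y + a) - FF A y) = 0 := by
    rw [sum_sub_distrib, sum_const, nsmul_eq_mul]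
    unfold FF
    rw [mul_div_cancel₀ _ hApos.ne', sub_self]
  have hb : ∑ a ∈ A, Real.exp (lam * (ind A (y + a) - FF A y)) ≤ A.card * Real.exp (lam ^ 2) := by
    calc ∑ a ∈ A, Real.exp (lam * (ind A (y + a) - FF A y)) ≤
          ∑ a ∈ A, (1 + lam ^ 2 + lam * (ind A (y + a) - FF A y)) := by
          refine sum_le_sum fun a _ => ?_
          have h1 : |ind A (y + a) - FF A y| ≤ 1 := by
            rw [abs_le]
            constructor
            · linarith [ind_nonneg A (y + a), FF_le_one A y]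
            · linarith [ind_le_one A (y + a), FF_nonneg A y]
          have h2 : |lam * (ind A (y + a) - FF A y)| ≤ |lam| := by
            rw [abs_mul]
            exact mul_le_of_le_one_right (abs_nonneg _) h1
          have h3 := (abs_le.1 (Real.abs_exp_sub_one_sub_id_le (h2.trans hlam))).2
          have h4 : (lam * (ind A (y + a) - FF A y)) ^ 2 ≤ lam ^ 2 := by
            rw [← sq_abs, ← sq_abs lam]
            exact pow_le_pow_left₀ (abs_nonneg _) h2 2
          linarith
      _ = A.card * (1 + lam ^ 2) := by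
          rw [sum_add_distrib, ← mul_sum, hsum0, mul_zero, add_zero, sum_const, nsmul_eq_mul]
      _ ≤ A.card * Real.exp (lam ^ 2) := by
          refine mul_le_mul_of_nonneg_left ?_ hApos.le
          have := Real.add_one_le_exp (lam ^ 2)
          linarith
  calc (∑ a ∈ A, Real.exp (lam * (ind A (y + a) - FF A y))) ^ k ≤ (A.card * Real.exp (lam ^ 2)) ^ k :=
        pow_le_pow_left₀ (sum_nonneg fun _ _ => (Real.exp_pos _).le) hb k
    _ = (A.card : ℝ) ^ k * Real.exp (lam ^ 2 * k) := by
        rw [mul_pow, ← Real.exp_nat_mul]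
        ring_nf

theorem abs_dev_le (A : Finset G) {k : ℕ} (l : Fin k → G) (y : G) : |dev A l y| ≤ k := by
  unfold dev
  refine (abs_sum_le_sum_abs _ _).trans ?_
  calc ∑ i, |ind A (y + l i) - FF A y| ≤ ∑ _i : Fin k, (1 : ℝ) := by
        refine sum_le_sum fun i _ => ?_
        rw [abs_le]
        constructor
        · linarith [ind_nonneg A (y + l i), FF_le_one A y]
        · linarith [ind_le_one A (y + l i), FF_nonneg A y]
    _ = k := by simp

theorem dev_zero (A : Finset G) {k : ℕ} (l : Fin k → G) (hl : ∀ i, l i ∈ A) (y : G)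
    (hy : y ∉ A + A - A) : dev A l y = 0 := by
  have h1 : ∀ a ∈ A, ind A (y + a) = 0 := by
    intro a ha
    unfold ind
    rw [if_neg]
    intro h
    apply hy
    rw [mem_sub]
    exact ⟨y + a, h, a, ha, by abel⟩
  unfold dev
  refine sum_eq_zero fun i _ => ?_
  rw [h1 _ (hl i)]
  unfold FF
  rw [sum_eq_zero h1]
  simp

set_option maxHeartbeats 1000000 in
/-- **Almost periods.** -/
theorem almost_periods (A S : Finset G) (hA : A.Nonempty) (K : ℝ)
    (hK : ((A + A).card : ℝ) ≤ K * A.card) (t : G) (hS : ∀ s ∈ S, s + t ∈ A) (ε : ℝ) (hε : 0 < ε)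
    (hε1 : ε ≤ 1) (k : ℕ) (hk0 : 0 < k) (hk : 4 * K ^ 3 * Real.exp (-(ε ^ 2 * k / 4)) ≤ ε) :
    ∃ T ⊆ S, (S.card : ℝ) ≤ 2 * K ^ k * T.card ∧
      ∀ z, ∀ s ∈ T, ∀ s' ∈ T, |GG A (z + s) - GG A (z + s')| ≤ 4 * ε := by
  classical
  have hApos : (0 : ℝ) < A.card := by exact_mod_cast hA.card_pos
  have hkR : (0 : ℝ) < k := by exact_mod_cast hk0
  obtain ⟨Y, hY⟩ : ∃ Y, Y = A + A - A := ⟨_, rfl⟩
  have hYcard : (Y.card : ℝ) ≤ K ^ 3 * A.card := by
    have h1 := Finset.pluennecke_ruzsa_inequality_nsmul_sub_nsmul_add hA A 2 1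
    have h2 := (NNRat.cast_le (K := ℝ)).2 h1
    push_cast at h2
    rw [two_nsmul, one_nsmul, ← hY] at h2
    refine h2.trans ?_
    refine mul_le_mul_of_nonneg_right ?_ hApos.le
    have h3 : ((A + A).card : ℝ) / A.card ≤ K := by rw [div_le_iff₀ hApos]; exact hK
    exact pow_le_pow_left₀ (by positivity) h3 3
  obtain ⟨Ψ, hΨ⟩ : ∃ Ψ : (Fin k → G) → ℝ, Ψ = fun l => ∑ y ∈ Y, Real.exp (-(ε ^ 2 * k / 2)) *
      (Real.exp (ε / 2 * dev A l y) + Real.exp (-(ε / 2) * dev A l y)) := ⟨_, rfl⟩
  obtain ⟨Ω, hΩ⟩ : ∃ Ω : Finset (Fin k → G), Ω = Fintype.piFinset (fun _ : Fin k => A) := ⟨_, rfl⟩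
  have hΩcard : (Ω.card : ℝ) = (A.card : ℝ) ^ k := by
    rw [hΩ, Fintype.card_piFinset]
    simp
  have hΨ0 : ∀ l, 0 ≤ Ψ l := by
    intro l
    rw [hΨ]
    exact sum_nonneg fun y _ => by positivity
  have hΨsum : ∑ l ∈ Ω, Ψ l ≤ ε / 2 * A.card * Ω.card := by
    rw [hΨ, sum_comm]
    have h1 : ∀ y ∈ Y, ∑ l ∈ Ω, Real.exp (-(ε ^ 2 * k / 2)) *
        (Real.exp (ε / 2 * dev A l y) + Real.exp (-(ε / 2) * dev A l y)) ≤
        2 * Ω.card * Real.exp (-(ε ^ 2 * k / 4)) := by
      intro y _
      rw [← mul_sum, sum_add_distrib]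
      have h2 := hoeff A k (ε / 2) (by rw [abs_of_pos (by positivity)]; linarith) y
      have h3 := hoeff A k (-(ε / 2)) (by rw [abs_neg, abs_of_pos (by positivity)]; linarith) y
      rw [← hΩ] at h2 h3
      have e1 : (-(ε / 2)) ^ 2 = (ε / 2) ^ 2 := by ring
      rw [e1] at h3
      have e2 : Real.exp (-(ε ^ 2 * k / 4)) = Real.exp (-(ε ^ 2 * k / 2)) * Real.exp ((ε / 2) ^ 2 * k) := by
        rw [← Real.exp_add]; congr 1; ring
      rw [e2, hΩcard]
      have h4 := (Real.exp_pos (-(ε ^ 2 * k / 2))).le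
      calc _ ≤ Real.exp (-(ε ^ 2 * k / 2)) * ((A.card : ℝ) ^ k * Real.exp ((ε / 2) ^ 2 * k) +
            (A.card : ℝ) ^ k * Real.exp ((ε / 2) ^ 2 * k)) :=
            mul_le_mul_of_nonneg_left (add_le_add h2 h3) h4
        _ = _ := by ring
    calc _ ≤ ∑ _y ∈ Y, 2 * Ω.card * Real.exp (-(ε ^ 2 * k / 4)) := sum_le_sum h1
      _ = Y.card * (2 * Ω.card * Real.exp (-(ε ^ 2 * k / 4))) := by rw [sum_const, nsmul_eq_mul]
      _ ≤ (K ^ 3 * A.card) * (2 * Ω.card * Real.exp (-(ε ^ 2 * k / 4))) :=
          mul_le_mul_of_nonneg_right hYcard (by positivity)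
      _ = (4 * K ^ 3 * Real.exp (-(ε ^ 2 * k / 4))) * (A.card * Ω.card / 2) := by ring
      _ ≤ ε * (A.card * Ω.card / 2) := mul_le_mul_of_nonneg_right hk (by positivity)
      _ = _ := by ring
  obtain ⟨good, hgood⟩ : ∃ good, good = Ω.filter fun l => Ψ l ≤ ε * A.card := ⟨_, rfl⟩
  have hgoodcard : (Ω.card : ℝ) ≤ 2 * good.card := by
    have h1 : (Ω.card : ℝ) = good.card + (Ω.filter fun l => ¬ Ψ l ≤ ε * A.card).card := by
      rw [hgood]
      exact_mod_cast (card_filter_add_card_filter_not (s := Ω) (fun l => Ψ l ≤ ε * A.card)).symm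
    obtain ⟨nb, hnb⟩ : ∃ nb : ℝ, nb = (Ω.filter fun l => ¬ Ψ l ≤ ε * A.card).card := ⟨_, rfl⟩
    rw [← hnb] at h1
    have h2 : nb * (ε * A.card) ≤ ε / 2 * A.card * Ω.card := by
      refine le_trans ?_ hΨsum
      calc nb * (ε * A.card) ≤ ∑ l ∈ Ω.filter (fun l => ¬ Ψ l ≤ ε * A.card), Ψ l := by
            rw [hnb, ← nsmul_eq_mul]
            refine card_nsmul_le_sum _ _ _ fun l hl => ?_
            exact (not_le.1 (mem_filter.1 hl).2).le
        _ ≤ ∑ l ∈ Ω, Ψ l := sum_le_sum_of_subset_of_nonneg (filter_subset _ _) fun l _ _ => hΨ0 l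
    have h3 : nb ≤ Ω.card / 2 := by
      have h4 : nb * (ε * A.card) ≤ (Ω.card / 2) * (ε * A.card) := by linarith
      exact le_of_mul_le_mul_right h4 (by positivity)
    linarith
  have hdev : ∀ l ∈ good, ∀ z, ∑ a ∈ A, |dev A l (z + a)| ≤ 2 * ε * k * A.card := by
    intro l hl z
    rw [hgood, mem_filter, hΩ, Fintype.mem_piFinset] at hl
    obtain ⟨hlA, hlΨ⟩ := hl
    obtain ⟨w, hw⟩ : ∃ w : G → ℝ, w = fun y => Real.exp (-(ε ^ 2 * k / 2)) *
      (Real.exp (ε / 2 * dev A l y) + Real.exp (-(ε / 2) * dev A l y)) := ⟨_, rfl⟩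
    have hw0 : ∀ y, 0 ≤ w y := fun y => by rw [hw]; positivity
    have hΨw : Ψ l = ∑ y ∈ Y, w y := by rw [hΨ, hw]
    have hpt : ∀ y, |dev A l y| ≤ ε * k + k * (if y ∈ Y then w y else 0) := by
      intro y
      split_ifs with hyY
      · rcases le_or_gt |dev A l y| (ε * k) with h | h
        · have := mul_nonneg hkR.le (hw0 y)
          linarith
        · have h1 : 1 ≤ w y := by
            have h2 : Real.exp (ε / 2 * |dev A l y|) ≤
                Real.exp (ε / 2 * dev A l y) + Real.exp (-(ε / 2) * dev A l y) := by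
              rcases abs_cases (dev A l y) with ⟨e, _⟩ | ⟨e, _⟩
              · rw [e]; linarith [Real.exp_pos (-(ε / 2) * dev A l y)]
              · rw [e]
                have e3 : ε / 2 * -dev A l y = -(ε / 2) * dev A l y := by ring
                rw [e3]; linarith [Real.exp_pos (ε / 2 * dev A l y)]
            rw [hw]
            calc (1 : ℝ) ≤ Real.exp (-(ε ^ 2 * k / 2)) * Real.exp (ε / 2 * |dev A l y|) := by
                  rw [← Real.exp_add]
                  apply Real.one_le_exp
                  nlinarith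
              _ ≤ _ := mul_le_mul_of_nonneg_left h2 (Real.exp_pos _).le
          have h3 := abs_dev_le A l y
          have h4 : (k : ℝ) ≤ k * w y := le_mul_of_one_le_right hkR.le h1
          have h5 : 0 ≤ ε * k := by positivity
          linarith
      · rw [hY] at hyY
        rw [dev_zero A l hlA y hyY, abs_zero]
        positivity
    calc ∑ a ∈ A, |dev A l (z + a)| ≤ ∑ a ∈ A, (ε * k + k * (if z + a ∈ Y then w (z + a) else 0)) :=
          sum_le_sum fun a _ => hpt _
      _ = A.card * (ε * k) + k * ∑ a ∈ A, (if z + a ∈ Y then w (z + a) else 0) := by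
          rw [sum_add_distrib, sum_const, nsmul_eq_mul, mul_sum]
      _ ≤ A.card * (ε * k) + k * ∑ y ∈ Y, w y := by
          have h1 : ∑ a ∈ A, (if z + a ∈ Y then w (z + a) else 0) ≤ ∑ y ∈ Y, w y := by
            rw [← sum_filter]
            have h2 : ∑ a ∈ A.filter (fun a => z + a ∈ Y), w (z + a) =
                ∑ y ∈ (A.filter (fun a => z + a ∈ Y)).image (fun a => z + a), w y := by
              rw [sum_image]
              intro a _ b _ h
              exact add_left_cancel h
            rw [h2]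
            refine sum_le_sum_of_subset_of_nonneg ?_ fun y _ _ => hw0 y
            intro y hy
            obtain ⟨a, ha, rfl⟩ := mem_image.1 hy
            exact (mem_filter.1 ha).2
          have := mul_le_mul_of_nonneg_left h1 hkR.le
          linarith
      _ ≤ A.card * (ε * k) + k * (ε * A.card) := by
          have := mul_le_mul_of_nonneg_left (hΨw ▸ hlΨ) hkR.le
          linarith
      _ = _ := by ring
  -- the fibres
  obtain ⟨U, hU⟩ : ∃ U : Finset (Fin k → G), U = Fintype.piFinset (fun _ : Fin k => A + A) := ⟨_, rfl⟩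
  have hUcard : (U.card : ℝ) ≤ K ^ k * (A.card : ℝ) ^ k := by
    rw [hU, Fintype.card_piFinset]
    simp only [prod_const, card_univ, Fintype.card_fin, Nat.cast_pow]
    rw [← mul_pow]
    exact pow_le_pow_left₀ (Nat.cast_nonneg _) hK k
  obtain ⟨TT, hTT⟩ : ∃ TT : (Fin k → G) → Finset G,
      TT = fun u => S.filter fun s => (fun i => u i - t - s) ∈ good := ⟨_, rfl⟩
  have hUne : U.Nonempty := by
    obtain ⟨a, ha⟩ := hA
    refine ⟨fun _ => a + a, ?_⟩
    rw [hU, Fintype.mem_piFinset]
    exact fun _ => add_mem_add ha ha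
  have hfib : (S.card : ℝ) * good.card ≤ ∑ u ∈ U, ((TT u).card : ℝ) := by
    have h1 : S.card * good.card ≤ ∑ u ∈ U, (TT u).card := by
      have h2 : ∑ u ∈ U, (TT u).card =
          ((U ×ˢ S).filter fun p => (fun i => p.1 i - t - p.2) ∈ good).card := by
        rw [card_filter, sum_product]
        refine sum_congr rfl fun u _ => ?_
        rw [hTT, card_filter]
      rw [h2, mul_comm, ← card_product]
      refine card_le_card_of_injOn (fun p => ((fun i => p.1 i + t + p.2), p.2)) ?_ ?_
      · intro p hp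
        rw [mem_coe, mem_product] at hp
        rw [mem_coe, mem_filter, mem_product]
        refine ⟨⟨?_, hp.2⟩, ?_⟩
        · rw [hU, Fintype.mem_piFinset]
          intro i
          have h3 := hp.1
          rw [hgood, mem_filter, hΩ, Fintype.mem_piFinset] at h3
          have e : p.1 i + t + p.2 = p.1 i + (p.2 + t) := by abel
          show p.1 i + t + p.2 ∈ A + A
          rw [e]
          exact add_mem_add (h3.1 i) (hS _ hp.2)
        · have e : (fun i => (p.1 i + t + p.2) - t - p.2) = p.1 := by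
            funext i; abel
          show (fun i => (p.1 i + t + p.2) - t - p.2) ∈ good
          rw [e]
          exact hp.1
      · intro p _ q _ h0
        have h : (((fun i : Fin k => p.1 i + t + p.2) : Fin k → G), p.2) =
          (((fun i : Fin k => q.1 i + t + q.2) : Fin k → G), q.2) := h0
        obtain ⟨h4, h3⟩ := Prod.mk.inj h
        refine Prod.ext ?_ h3
        funext i
        have h5 := congrFun h4 i
        simp only [h3] at h5
        exact add_right_cancel (add_right_cancel h5)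
    exact_mod_cast h1
  obtain ⟨u, huU, hu⟩ : ∃ u ∈ U, (S.card : ℝ) * good.card ≤ U.card * (TT u).card := by
    obtain ⟨u, huU, hmax⟩ := exists_max_image U (fun u => (TT u).card) hUne
    refine ⟨u, huU, hfib.trans ?_⟩
    calc ∑ u ∈ U, ((TT u).card : ℝ) ≤ ∑ _v ∈ U, ((TT u).card : ℝ) :=
          sum_le_sum fun v hv => by exact_mod_cast hmax v hv
      _ = _ := by rw [sum_const, nsmul_eq_mul]
  refine ⟨TT u, by rw [hTT]; exact filter_subset _ _, ?_, ?_⟩
  · have h1 : (S.card : ℝ) * ((A.card : ℝ) ^ k / 2) ≤ (K ^ k * (A.card : ℝ) ^ k) * (TT u).card := by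
      calc (S.card : ℝ) * ((A.card : ℝ) ^ k / 2) ≤ S.card * good.card := by
            refine mul_le_mul_of_nonneg_left ?_ (Nat.cast_nonneg _)
            rw [← hΩcard]; linarith
        _ ≤ U.card * (TT u).card := hu
        _ ≤ _ := mul_le_mul_of_nonneg_right hUcard (Nat.cast_nonneg _)
    have h2 : (S.card : ℝ) * ((A.card : ℝ) ^ k / 2) ≤
        (2 * K ^ k * (TT u).card) * ((A.card : ℝ) ^ k / 2) := by linarith
    exact le_of_mul_le_mul_right h2 (by positivity)
  · intro z s hs s' hs'
    rw [hTT] at hs hs'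
    have hs1 := (mem_filter.1 hs).2
    have hs1' := (mem_filter.1 hs').2
    have key : ∀ a, (k : ℝ) * (FF A (z + s + a) - FF A (z + s' + a)) =
        dev A (fun i => u i - t - s') (z + s' + a) - dev A (fun i => u i - t - s) (z + s + a) := by
      intro a
      unfold dev
      rw [sum_sub_distrib, sum_sub_distrib]
      simp only [sum_const, card_univ, Fintype.card_fin, nsmul_eq_mul]
      have e1 : ∀ i, z + s + a + (u i - t - s) = z + a + u i - t := fun i => by abel
      have e2 : ∀ i, z + s' + a + (u i - t - s') = z + a + u i - t := fun i => by abel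
      simp only [e1, e2]
      ring
    have h1 : (k : ℝ) * (A.card * (GG A (z + s) - GG A (z + s'))) =
        ∑ a ∈ A, (dev A (fun i => u i - t - s') (z + s' + a) -
          dev A (fun i => u i - t - s) (z + s + a)) := by
      unfold GG
      rw [← sub_div, mul_div_cancel₀ _ hApos.ne', ← sum_sub_distrib, mul_sum]
      exact sum_congr rfl fun a _ => key a
    have h2 : |(k : ℝ) * (A.card * (GG A (z + s) - GG A (z + s')))| ≤ 4 * ε * (k * A.card) := by
      rw [h1]
      refine (abs_sum_le_sum_abs _ _).trans ?_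
      calc _ ≤ ∑ a ∈ A, (|dev A (fun i => u i - t - s') (z + s' + a)| +
            |dev A (fun i => u i - t - s) (z + s + a)|) := sum_le_sum fun a _ => abs_sub _ _
        _ ≤ 2 * ε * k * A.card + 2 * ε * k * A.card := by
            rw [sum_add_distrib]
            exact add_le_add (hdev _ hs1' _) (hdev _ hs1 _)
        _ = _ := by ring
    rw [abs_mul, abs_mul, abs_of_pos hkR, abs_of_pos hApos] at h2
    have h3 : |GG A (z + s) - GG A (z + s')| * (k * A.card) ≤ (4 * ε) * (k * A.card) := by linarith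
    exact le_of_mul_le_mul_right h3 (by positivity)

end Pool.Agent.V1121.PF.QP
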