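import Pool.Agent.V1121.PF.QP.Num
import Pool.Agent.H217R3.AK.Bsg
set_option autoImplicit false

/-! Bohr sets in `2A - 2A` for sets of large additive energy in `ℤ/N`. -/

namespace Pool.Agent.V1121.PF.QP

open Finset Pool.Agent.TH858 Pool.Agent.TH858.GP Pool.Agent.V1121.PF.LC
open scoped Pointwise

variable {N : ℕ} [NeZero N]

set_option maxHeartbeats 4000000 in
/-- **Bohr sets in `2A - 2A` for sets of large additive energy in `ℤ/N`.** -/
theorem main_energy (A : Finset (ZMod N)) (hA : A.Nonempty) (K : ℝ) (hK1 : 1 ≤ K)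
    (hE : (A.card : ℝ) ^ 3 ≤ K * (A.addEnergy A : ℕ)) (R : ℝ) (hR : 10 ^ 17 * Real.log (2 * K) ^ 4 ≤ R) :
    ∃ Γ : Finset (ZMod N), (Γ.card : ℝ) ≤ 10 ^ 15 * Real.log (2 * K) ^ 4 +
          5 * (Real.log (N / A.card) / Real.log R) ∧
      ∀ x : ZMod N, (∀ g ∈ Γ, CB.nn (g * x) ≤ 1 / (8 * R)) →
        ∃ a₁ ∈ A, ∃ a₂ ∈ A, ∃ a₃ ∈ A, ∃ a₄ ∈ A, x = a₁ + a₂ - a₃ - a₄ := by
  classical
  obtain ⟨B, hBA, hB, hAB, hBB⟩ := Pool.Agent.H217R3.AK.bsg A hA K (by linarith) hE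
  have hApos : (0 : ℝ) < A.card := by exact_mod_cast hA.card_pos
  have hBpos : (0 : ℝ) < B.card := by exact_mod_cast hB.card_pos
  have hNpos : (0 : ℝ) < N := Nat.cast_pos.mpr (NeZero.pos N)
  obtain ⟨κ, hκ⟩ : ∃ κ, κ = Real.log (2 * K) := ⟨_, rfl⟩
  rw [← hκ] at hR ⊢
  have hlog2 : Real.log 2 ≤ κ := by
    rw [hκ]; exact Real.log_le_log (by norm_num) (by linarith)
  have hκ69 : (0.69 : ℝ) < κ := lt_of_lt_of_le H112.log_two_gt hlog2
  have hlogK0 : 0 ≤ Real.log K := Real.log_nonneg hK1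
  have hκe : κ = Real.log 2 + Real.log K := by
    rw [hκ, Real.log_mul (by norm_num) (by linarith)]
  have hlog20 : 0 < Real.log 2 := Real.log_pos (by norm_num)
  obtain ⟨K₁, hK₁⟩ : ∃ K₁ : ℝ, K₁ = (2 ^ 22 * K ^ 10) ^ 2 := ⟨_, rfl⟩
  have hBB2 : ((B + B).card : ℝ) ≤ K₁ * B.card := by
    have h1 := Finset.pluennecke_ruzsa_inequality_nsmul_sub_nsmul_sub hB B 2 0
    have h2 := (NNRat.cast_le (K := ℝ)).2 h1
    push_cast at h2
    rw [two_nsmul, zero_nsmul, sub_zero] at h2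
    refine h2.trans ?_
    refine mul_le_mul_of_nonneg_right ?_ hBpos.le
    have h3 : ((B - B).card : ℝ) / B.card ≤ 2 ^ 22 * K ^ 10 := by rw [div_le_iff₀ hBpos]; exact hBB
    rw [hK₁]
    exact pow_le_pow_left₀ (by positivity) h3 2
  have hlogK₁ : Real.log (2 * K₁) ≤ 45 * κ := by
    rw [hK₁, Real.log_mul (by norm_num) (by positivity), Real.log_pow,
      Real.log_mul (by norm_num) (by positivity), Real.log_pow, Real.log_pow, hκe]
    push_cast
    linarith
  have hlogK₁0 : 0 ≤ Real.log (2 * K₁) := by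
    apply Real.log_nonneg
    have h1 : (1 : ℝ) ≤ K ^ 10 := one_le_pow₀ hK1
    rw [hK₁]
    nlinarith
  have hpow : Real.log (2 * K₁) ^ 4 ≤ 4100625 * κ ^ 4 := by
    calc Real.log (2 * K₁) ^ 4 ≤ (45 * κ) ^ 4 := pow_le_pow_left₀ hlogK₁0 hlogK₁ 4
      _ = _ := by ring
  have hκ4 : 0 < κ ^ 4 := by positivity
  obtain ⟨Γ, h1, h2⟩ := main B hB K₁ hBB2 R (by linarith)
  refine ⟨Γ, h1.trans ?_, ?_⟩
  · have q2 : 0.476 ≤ κ ^ 2 := by nlinarith
    have q3 : 0.328 ≤ κ ^ 3 := by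
      have e : κ ^ 3 = κ ^ 2 * κ := by ring
      rw [e]; nlinarith
    have r1 : κ ≤ 3.05 * κ ^ 4 := by
      have e : κ ^ 4 = κ * κ ^ 3 := by ring
      rw [e]
      have := mul_le_mul_of_nonneg_left q3 (show 0 ≤ κ by linarith)
      linarith
    have hR1 : 1 ≤ Real.log R := by
      have q4 : 0.226 ≤ κ ^ 4 := by
        have e : κ ^ 4 = κ ^ 3 * κ := by ring
        rw [e]; nlinarith
      rw [Real.le_log_iff_exp_le (by linarith)]
      have h1 := Real.exp_one_lt_d9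
      linarith
    have hR0 : 0 < Real.log R := by linarith
    have h3 : Real.log (N / B.card) ≤ Real.log (N / A.card) + 3 * κ := by
      have h4 : (N : ℝ) / B.card ≤ N / A.card * (8 * K) := by
        rw [div_mul_eq_mul_div, div_le_div_iff₀ hBpos hApos, mul_assoc]
        exact mul_le_mul_of_nonneg_left hAB hNpos.le
      have h5 := Real.log_le_log (by positivity) h4
      rw [Real.log_mul (by positivity) (by positivity)] at h5
      have h6 : Real.log (8 * K) ≤ 3 * κ := by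
        have e : (8 : ℝ) = 2 ^ 3 := by norm_num
        rw [e, Real.log_mul (by norm_num) (by positivity), Real.log_pow, hκe]
        push_cast
        linarith
      linarith
    have h4 : Real.log (N / B.card) / Real.log R ≤ Real.log (N / A.card) / Real.log R + 3 * κ := by
      calc Real.log (N / B.card) / Real.log R ≤ (Real.log (N / A.card) + 3 * κ) / Real.log R :=
            div_le_div_of_nonneg_right h3 hR0.le
        _ = Real.log (N / A.card) / Real.log R + (3 * κ) / Real.log R := add_div _ _ _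
        _ ≤ _ := by
            have := div_le_self (show (0 : ℝ) ≤ 3 * κ by linarith) hR1
            linarith
    linarith
  · intro x hx
    obtain ⟨a₁, m1, a₂, m2, a₃, m3, a₄, m4, e⟩ := h2 x hx
    exact ⟨a₁, hBA m1, a₂, hBA m2, a₃, hBA m3, a₄, hBA m4, e⟩

/-- the conclusion of Q1 for sets of additive energy at least `exp (-c (log (1/α))^{1/4}) |A|^3` -/
theorem question_energy (C : ℝ) (hC : 0 < C) (A : Finset (ZMod N)) (hA : A.Nonempty)
    (hα : (A.card : ℝ) / N ≤ 1 / 2) (K : ℝ) (hK1 : 1 ≤ K)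
    (hE : (A.card : ℝ) ^ 3 ≤ K * (A.addEnergy A : ℕ))
    (hKC : Real.log (2 * K) ^ 4 ≤ C * Real.log (N / A.card)) :
    ∃ Γ : Finset (ZMod N), (Γ.card : ℝ) ≤ (10 ^ 15 * C + 5) * Real.log (N / A.card) ∧
      ∀ x : ZMod N, (∀ g ∈ Γ, CB.nn (g * x) ≤ 1 / (8 * 10 ^ 17 * (C + 1)) / Real.log (N / A.card)) →
        ∃ a₁ ∈ A, ∃ a₂ ∈ A, ∃ a₃ ∈ A, ∃ a₄ ∈ A, x = a₁ + a₂ - a₃ - a₄ := by
  classical
  have hApos : (0 : ℝ) < A.card := by exact_mod_cast hA.card_pos
  have hN : (0 : ℝ) < N := Nat.cast_pos.mpr (NeZero.pos N)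
  obtain ⟨l, hl⟩ : ∃ l, l = Real.log (N / A.card) := ⟨_, rfl⟩
  rw [← hl] at hKC ⊢
  have hl1 : 0.69 < l := by
    have h1 : (2 : ℝ) ≤ N / A.card := by
      rw [div_le_iff₀ hN] at hα
      rw [le_div_iff₀ hApos]; linarith
    have h2 := Real.log_le_log (by norm_num) h1
    rw [hl]
    exact lt_of_lt_of_le H112.log_two_gt h2
  have hCl : 0 < C * l := by positivity
  have hR : 10 ^ 17 * Real.log (2 * K) ^ 4 ≤ 10 ^ 17 * (C + 1) * l := by nlinarith
  obtain ⟨Γ, h1, h2⟩ := main_energy A hA K hK1 hE _ hR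
  refine ⟨Γ, ?_, ?_⟩
  · refine h1.trans ?_
    rw [← hl]
    have hR1 : 1 ≤ Real.log (10 ^ 17 * (C + 1) * l) := by
      rw [Real.le_log_iff_exp_le (by positivity)]
      have h1 := Real.exp_one_lt_d9
      nlinarith
    have h3 : l / Real.log (10 ^ 17 * (C + 1) * l) ≤ l := div_le_self (by linarith) hR1
    linarith
  · intro x hx
    apply h2 x
    intro g hg
    refine (hx g hg).trans (le_of_eq ?_)
    field_simp

end Pool.Agent.V1121.PF.QP
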