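import Pool.Agent.V1121.PF.QP.WRudin
import Pool.Agent.V1121.PF.LC.Main
set_option autoImplicit false

/-! A local Chang inequality on progressions of `ℤ/N` with polynomial loss in the scale. -/

namespace Pool.Agent.V1121.PF.QP

open Finset Complex Pool.Agent.TH858 Pool.Agent.TH858.GP Pool.Agent.V1121.PF.LC
open scoped ComplexConjugate

variable {N : ℕ} [NeZero N]

/-- a smooth weight -/
theorem smooth (P : Finset (ZMod N)) (hP : P.Nonempty) (X : ℕ → Finset (ZMod N)) :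
    ∀ l : ℕ, (∀ j < l, ∀ y ∈ X (j + 1), ∀ q ∈ P, y - q ∈ X j) →
      ∃ w : ZMod N → ℝ, (∀ y, 0 ≤ w y) ∧ (∀ y ∈ X l, 1 ≤ w y) ∧ ∑ y, w y = (X 0).card ∧
        ∀ γ : ZMod N, ‖∑ y, (w y : ℂ) * ψ (γ * y)‖ ≤
          (X 0).card * (‖∑ q ∈ P, ψ (γ * q)‖ / P.card) ^ l := by
  classical
  have hPpos : (0 : ℝ) < P.card := by exact_mod_cast hP.card_pos
  intro l
  induction l with
  | zero =>
    intro _
    refine ⟨fun y => if y ∈ X 0 then 1 else 0, fun y => by positivity, fun y hy => by simp [hy],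
      by simp, fun γ => ?_⟩
    rw [pow_zero, mul_one]
    have e : ∑ y, (((if y ∈ X 0 then (1 : ℝ) else 0) : ℝ) : ℂ) * ψ (γ * y) = ∑ y ∈ X 0, ψ (γ * y) := by
      rw [← sum_filter_add_sum_filter_not univ (fun y => y ∈ X 0)]
      have h1 : ∑ y ∈ univ.filter (fun y => ¬ y ∈ X 0),
          (((if y ∈ X 0 then (1 : ℝ) else 0) : ℝ) : ℂ) * ψ (γ * y) = 0 := by
        refine sum_eq_zero fun y hy => ?_
        rw [mem_filter] at hy
        rw [if_neg hy.2]; simp
      rw [h1, add_zero]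
      have h2 : univ.filter (fun y => y ∈ X 0) = X 0 := by ext y; simp
      rw [h2]
      refine sum_congr rfl fun y hy => ?_
      rw [if_pos hy]; simp
    rw [e]
    refine (norm_sum_le _ _).trans ?_
    rw [sum_congr rfl fun y _ => ψ_norm (γ * y)]
    simp
  | succ l ih =>
    intro hX
    obtain ⟨w, hw0, hw1, hw2, hw3⟩ := ih fun j hj => hX j (by omega)
    refine ⟨fun y => (∑ q ∈ P, w (y - q)) / P.card, fun y => ?_, fun y hy => ?_, ?_, fun γ => ?_⟩
    · exact div_nonneg (sum_nonneg fun q _ => hw0 _) hPpos.le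
    · rw [le_div_iff₀ hPpos, one_mul]
      calc (P.card : ℝ) = ∑ _q ∈ P, (1 : ℝ) := by simp
        _ ≤ ∑ q ∈ P, w (y - q) := sum_le_sum fun q hq => hw1 _ (hX l (by omega) y hy q hq)
    · rw [← sum_div, sum_comm]
      have h1 : ∀ q ∈ P, ∑ y, w (y - q) = (X 0).card := by
        intro q _
        rw [← hw2]
        exact Fintype.sum_equiv (Equiv.subRight q) _ _ fun y => rfl
      rw [sum_congr rfl h1, sum_const, nsmul_eq_mul]
      exact mul_div_cancel_left₀ _ hPpos.ne'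
    · have e : ∑ y, (((∑ q ∈ P, w (y - q)) / P.card : ℝ) : ℂ) * ψ (γ * y) =
          (∑ y, (w y : ℂ) * ψ (γ * y)) * ((∑ q ∈ P, ψ (γ * q)) / P.card) := by
        have h1 : ∑ y, (((∑ q ∈ P, w (y - q)) / P.card : ℝ) : ℂ) * ψ (γ * y) =
            (∑ q ∈ P, ∑ y, (w (y - q) : ℂ) * ψ (γ * y)) / P.card := by
          rw [sum_comm, sum_div]
          refine sum_congr rfl fun y _ => ?_
          push_cast
          rw [div_mul_eq_mul_div, sum_mul]
        have h2 : ∀ q ∈ P, ∑ y, (w (y - q) : ℂ) * ψ (γ * y) =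
            (∑ y, (w y : ℂ) * ψ (γ * y)) * ψ (γ * q) := by
          intro q _
          rw [sum_mul]
          refine Fintype.sum_equiv (Equiv.subRight q) _ _ fun y => ?_
          simp only [Equiv.subRight_apply]
          rw [mul_assoc, ← ψ_add]
          congr 2
          ring
        rw [h1, sum_congr rfl h2, ← mul_sum, mul_div_assoc]
      rw [e, norm_mul, norm_div, pow_succ, ← mul_assoc]
      have h3 : ‖(P.card : ℂ)‖ = P.card := by simp
      rw [h3]
      exact mul_le_mul_of_nonneg_right (hw3 γ) (by positivity)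

/-- **Local Chang inequality on a progression.** -/
theorem local_chang {d : ℕ} (a : Fin d → ZMod N) (L L₂ : Fin d → ℕ) (hinj : Set.InjOn (ev a) (box L))
    (ρ M : ℕ) (hρ : 0 < ρ) (hdρ : d ≤ ρ) (hL : ∀ i, 2 * ρ * ((M + 1) * L₂ i) ≤ L i)
    (T : Finset (ZMod N)) (hT : T ⊆ XX a L) (hTne : T.Nonempty) (τ : ℝ) (hτ : 0 < τ)
    (hdens : τ * (XX a L).card ≤ T.card) (hM : 16 * Real.log (4 / τ) ≤ M) :
    ∃ Λ : Finset (ZMod N), Λ.card ≤ M ∧
      ∀ g : ZMod N, (T.card : ℝ) / 2 ≤ ‖∑ y ∈ T, ψ (g * y)‖ →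
        g ∈ Λ ∨ ∃ ε : ZMod N → ℤ, (∀ l, |ε l| ≤ 1) ∧
          1 / 2 * (XX a L₂).card < ‖∑ y ∈ XX a L₂, ψ ((g - ∑ l ∈ Λ, (ε l : ZMod N) * l) * y)‖ := by
  classical
  have hTpos : (0 : ℝ) < T.card := by exact_mod_cast hTne.card_pos
  obtain ⟨Λ, hΛS, hΛ1, hΛ2⟩ := exists_diss (XX a L₂)
    (univ.filter fun g => (T.card : ℝ) / 2 ≤ ‖∑ y ∈ T, ψ (g * y)‖) (1 / 2)
  refine ⟨Λ, ?_, fun g hg => hΛ2 g (by rw [mem_filter]; exact ⟨mem_univ _, hg⟩)⟩
  by_contra hcon
  push Not at hcon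
  obtain ⟨Λ', hΛ's, hΛ'c⟩ := exists_subset_card_eq (show M + 1 ≤ Λ.card by omega)
  have hPne : (XX a L₂).Nonempty := by
    have : (0 : Fin d → ℤ) ∈ box L₂ := by rw [mem_box]; intro i; simp
    exact ⟨_, mem_image_of_mem (ev a) this⟩
  have hP : (0 : ℝ) < (XX a L₂).card := by exact_mod_cast hPne.card_pos
  obtain ⟨w, hw0, hw1, hw2, hw3⟩ := smooth (XX a L₂) hPne
    (fun j => XX a (fun i => L i + (M + 1 - j) * L₂ i)) (M + 1) (by
    intro j hj y hy q hq
    have h1 := sub_mem_XX a _ L₂ y q hy hq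
    have e : (fun i => L i + (M + 1 - (j + 1)) * L₂ i + L₂ i) = fun i => L i + (M + 1 - j) * L₂ i := by
      funext i
      have : M + 1 - j = (M + 1 - (j + 1)) + 1 := by omega
      rw [this]; ring
    rw [e] at h1
    exact h1)
  have hcard := card_sum_le a L (fun i => (M + 1) * L₂ i) hinj ρ hρ hdρ hL
  simp only [Nat.sub_zero] at hw2 hw3
  simp only [Nat.sub_self, Nat.zero_mul, Nat.add_zero] at hw1
  have hD : WDiss w Λ' (1 / 2 ^ (M + 1)) := by
    intro ε hε hne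
    have h1 := (hΛ1.mono hΛ's) ε hε hne
    refine (hw3 _).trans ?_
    rw [hw2, mul_comm]
    refine mul_le_mul_of_nonneg_right ?_ (Nat.cast_nonneg _)
    rw [← one_div_pow]
    refine pow_le_pow_left₀ (by positivity) ?_ _
    rw [div_le_iff₀ hP]
    exact h1
  have h1 := wchang T Λ' w hw0 (fun y hy => hw1 y (hT hy)) hTne (τ / 2) (by positivity) (by
    rw [hw2]
    have : τ / 2 * ((XX a fun i => L i + (M + 1) * L₂ i).card : ℝ) ≤ τ / 2 * (2 * (XX a L).card) :=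
      mul_le_mul_of_nonneg_left hcard (by positivity)
    linarith) (1 / 2 ^ (M + 1)) (by positivity) hD (by
    rw [hΛ'c, mul_one_div, div_self (by positivity)])
  have h2 : (Λ'.card : ℝ) * ((T.card : ℝ) ^ 2 / 4) ≤ ∑ l ∈ Λ', wt T l := by
    rw [← nsmul_eq_mul]
    refine card_nsmul_le_sum _ _ _ fun l hl => ?_
    have h3 := (mem_filter.1 (hΛS (hΛ's hl))).2
    have h4 := pow_le_pow_left₀ (by positivity) h3 2
    unfold wt
    calc (T.card : ℝ) ^ 2 / 4 = ((T.card : ℝ) / 2) ^ 2 := by ring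
      _ ≤ _ := h4
  have h3 := h2.trans h1
  have e : (2 : ℝ) / (τ / 2) = 4 / τ := by field_simp; norm_num
  rw [e, hΛ'c] at h3
  have h4 : ((M + 1 : ℕ) : ℝ) / 4 ≤ 4 * Real.log (4 / τ) := by
    have h5 : (((M + 1 : ℕ) : ℝ) / 4) * (T.card : ℝ) ^ 2 ≤
        (4 * Real.log (4 / τ)) * (T.card : ℝ) ^ 2 := by linarith
    exact le_of_mul_le_mul_right h5 (by positivity)
  push_cast at h4
  linarith

end Pool.Agent.V1121.PF.QP
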