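import Pool.Agent.V1121.PF.QP.Struct
import Pool.Agent.V1121.PF.QP.Smooth
import Pool.Agent.V1121.PF.LC.Lower
set_option autoImplicit false

/-! Bohr sets in `2A - 2A` for sets of small doubling in `ℤ/N`. -/

namespace Pool.Agent.V1121.PF.QP

open Finset Complex Pool.Agent.TH858 Pool.Agent.TH858.GP Pool.Agent.V1121.PF.LC
open scoped ComplexConjugate Pointwise

variable {N : ℕ} [NeZero N]

set_option maxHeartbeats 4000000 in
/-- the structural part, without numerics -/
theorem assemble {d : ℕ} (a : Fin d → ZMod N) (L : Fin d → ℕ)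
    (hinj : Set.InjOn (ev a) (box L)) (R K δ ε : ℝ) (m k M : ℕ) (hR : (d : ℝ) + 2 ≤ R)
    (hRM : 200 * ((M : ℝ) + 1) ≤ R) (hδ : 0 < δ) (hK : 1 ≤ K) (hε : 0 < ε) (hε1 : ε ≤ 1)
    (hk0 : 0 < k) (hk : 4 * K ^ 3 * Real.exp (-(ε ^ 2 * k / 4)) ≤ ε)
    (hεm : 32 * ε * m ≤ 1) (hKm : 16 * K ≤ 4 ^ m)
    (hM : 16 * Real.log (8 * K ^ k / δ) ≤ M)
    (A : Finset (ZMod N)) (t : ZMod N) (hAA : ((A + A).card : ℝ) ≤ K * A.card)
    (hdens : δ * (XX a L).card ≤ (A.filter fun y => y - t ∈ XX a L).card) :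
    ∃ Γ : Finset (ZMod N), (Γ.card : ℝ) ≤ 195 * d + 1 + M +
        5 * (Real.log (N / (XX a L).card) / Real.log R) ∧
      ∀ x : ZMod N, (∀ g ∈ Γ, CB.nn (g * x) ≤ 1 / (8 * R)) →
        ∃ a₁ ∈ A, ∃ a₂ ∈ A, ∃ a₃ ∈ A, ∃ a₄ ∈ A, x = a₁ + a₂ - a₃ - a₄ := by
  classical
  have hNpos : (0 : ℝ) < N := Nat.cast_pos.mpr (NeZero.pos N)
  have hd0 : (0 : ℝ) ≤ d := Nat.cast_nonneg d
  have hM0 : (0 : ℝ) ≤ M := Nat.cast_nonneg M
  have hR200 : 200 ≤ R := by linarith
  have hR0 : 0 < R := by linarith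
  have hlogR : 0 < Real.log R := Real.log_pos (by linarith)
  have hXne : ∀ M : Fin d → ℕ, (XX a M).Nonempty := fun M => by
    have : (0 : Fin d → ℤ) ∈ box M := by rw [mem_box]; intro i; simp
    exact ⟨_, mem_image_of_mem (ev a) this⟩
  have hPpos : (0 : ℝ) < (XX a L).card := by exact_mod_cast (hXne L).card_pos
  obtain ⟨A', hA'⟩ : ∃ A' : Finset (ZMod N), A' = A.filter fun y => y - t ∈ XX a L := ⟨_, rfl⟩
  rw [← hA'] at hdens
  have hA'pos : (0 : ℝ) < A'.card := lt_of_lt_of_le (by positivity) hdens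
  have hA'ne : A'.Nonempty := by
    rw [← card_pos]
    exact_mod_cast hA'pos
  have hAne : A.Nonempty := hA'ne.mono (by rw [hA']; exact filter_subset _ _)
  obtain ⟨S, hS⟩ : ∃ S : Finset (ZMod N), S = A'.image fun y => y - t := ⟨_, rfl⟩
  have hScard : S.card = A'.card := by
    rw [hS]
    exact card_image_of_injective _ sub_left_injective
  have hSX : S ⊆ XX a L := by
    intro s hs
    rw [hS, mem_image] at hs
    obtain ⟨y, hy, rfl⟩ := hs
    rw [hA', mem_filter] at hy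
    exact hy.2
  have hSA : ∀ s ∈ S, s + t ∈ A := by
    intro s hs
    rw [hS, mem_image] at hs
    obtain ⟨y, hy, rfl⟩ := hs
    rw [hA', mem_filter] at hy
    rw [sub_add_cancel]
    exact hy.1
  obtain ⟨T, hTS, hTcard, hper⟩ := almost_periods A S hAne K hAA t hSA ε hε hε1 k hk0 hk
  have hTne : T.Nonempty := by
    rw [nonempty_iff_ne_empty]
    rintro rfl
    rw [card_empty, Nat.cast_zero, mul_zero, hScard] at hTcard
    linarith
  obtain ⟨τ, hτ⟩ : ∃ τ : ℝ, τ = δ / (2 * K ^ k) := ⟨_, rfl⟩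
  have hKk : (0 : ℝ) < K ^ k := by positivity
  have hτ0 : 0 < τ := by rw [hτ]; positivity
  have hτd : τ * (XX a L).card ≤ T.card := by
    rw [hτ, div_mul_eq_mul_div, div_le_iff₀ (by positivity)]
    rw [hScard] at hTcard
    linarith
  have hτM : 16 * Real.log (4 / τ) ≤ M := by
    have e : 4 / τ = 8 * K ^ k / δ := by rw [hτ]; field_simp; norm_num
    rw [e]; exact hM
  -- scales
  obtain ⟨ρ, hρ⟩ : ∃ ρ : ℕ, ρ = d + 1 := ⟨_, rfl⟩
  have hρR : (ρ : ℝ) ≤ R := by rw [hρ]; push_cast; linarith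
  have hρ0 : 0 < ρ := by omega
  have hρR0 : (0 : ℝ) < ρ := by exact_mod_cast hρ0
  obtain ⟨L₂, hL₂⟩ : ∃ L₂ : Fin d → ℕ, L₂ = fun i => L i / (2 * ρ * (M + 1)) := ⟨_, rfl⟩
  obtain ⟨W, hW⟩ : ∃ W : ℕ, W = 200 * ρ := ⟨_, rfl⟩
  have hWpos : 0 < W := by omega
  obtain ⟨L₃, hL₃⟩ : ∃ L₃ : Fin d → ℕ, L₃ = fun i => L₂ i / W := ⟨_, rfl⟩
  have hL₂1 : ∀ i, 2 * ρ * (M + 1) * L₂ i ≤ L i := fun i => by rw [hL₂]; exact Nat.mul_div_le _ _
  have hL₂2 : ∀ i, L i < 2 * ρ * (M + 1) * (L₂ i + 1) := fun i => by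
    rw [hL₂]; exact Nat.lt_mul_div_succ _ (by positivity)
  have hL₃1 : ∀ i, W * L₃ i ≤ L₂ i := fun i => by rw [hL₃]; exact Nat.mul_div_le _ _
  have hL₃2 : ∀ i, L₂ i < W * (L₃ i + 1) := fun i => by
    rw [hL₃]; exact Nat.lt_mul_div_succ _ hWpos
  have hL₂le : ∀ i, L₂ i ≤ L i := fun i => by
    have h1 := hL₂1 i
    have h2 : L₂ i ≤ 2 * ρ * (M + 1) * L₂ i := Nat.le_mul_of_pos_left _ (by positivity)
    omega
  have hL₃le : ∀ i, L₃ i ≤ L₂ i := fun i => by
    have h1 := hL₃1 i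
    have h2 : L₃ i ≤ W * L₃ i := Nat.le_mul_of_pos_left _ hWpos
    omega
  have hinj₂ : Set.InjOn (ev a) (box L₂) := hinj.mono (box_mono L L₂ hL₂le)
  have hinj₃ : Set.InjOn (ev a) (box L₃) := hinj₂.mono (box_mono L₂ L₃ hL₃le)
  have hX₂pos : (0 : ℝ) < (XX a L₂).card := by exact_mod_cast (hXne L₂).card_pos
  have hX₃pos : (0 : ℝ) < (XX a L₃).card := by exact_mod_cast (hXne L₃).card_pos
  obtain ⟨Λ, hΛcard, hΛ⟩ := local_chang a L L₂ hinj ρ M hρ0 (by omega)
    (fun i => by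
      have := hL₂1 i
      calc 2 * ρ * ((M + 1) * L₂ i) = 2 * ρ * (M + 1) * L₂ i := by ring
        _ ≤ L i := this)
    T (hTS.trans hSX) hTne τ hτ0 hτd hτM
  obtain ⟨Γ₀, hΓ₀, hΓ₀'⟩ := general a L₃ hinj₃ R hR
  refine ⟨Γ₀ ∪ Λ, ?_, ?_⟩
  · have hcard : ((XX a L).card : ℝ) ≤ (R ^ 4) ^ d * (XX a L₃).card := by
      have h1 : (XX a L).card = ∏ i, (2 * L i + 1) := by
        unfold XX
        rw [card_image_of_injOn hinj, card_box]
      have h2 : (XX a L₃).card = ∏ i, (2 * L₃ i + 1) := by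
        unfold XX
        rw [card_image_of_injOn hinj₃, card_box]
      have h3 : (R ^ 4) ^ d = ∏ _i : Fin d, (R ^ 4) := by simp
      rw [h1, h2, h3]
      push_cast
      rw [← prod_mul_distrib]
      refine prod_le_prod (fun i _ => by positivity) fun i _ => ?_
      have h4 : (L i : ℝ) + 1 ≤ 2 * ρ * (M + 1) * (L₂ i + 1) := by exact_mod_cast hL₂2 i
      have h5 : (L₂ i : ℝ) + 1 ≤ (200 * ρ) * (L₃ i + 1) := by
        have := hL₃2 i
        rw [hW] at this
        exact_mod_cast this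
      have h6 : (L i : ℝ) + 1 ≤ 2 * ρ * (M + 1) * ((200 * ρ) * (L₃ i + 1)) :=
        h4.trans (mul_le_mul_of_nonneg_left h5 (by positivity))
      have h7 : 2 * (ρ : ℝ) * (M + 1) * ((200 * ρ) * (L₃ i + 1)) =
          2 * (200 * (M + 1)) * ρ ^ 2 * (L₃ i + 1) := by ring
      rw [h7] at h6
      have h8 : 2 * (200 * ((M : ℝ) + 1)) * ρ ^ 2 ≤ 2 * R * R ^ 2 := by
        have h9 : (ρ : ℝ) ^ 2 ≤ R ^ 2 := pow_le_pow_left₀ hρR0.le hρR 2
        have h10 : 2 * (200 * ((M : ℝ) + 1)) ≤ 2 * R := by linarith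
        exact mul_le_mul h10 h9 (by positivity) (by positivity)
      have h11 : 4 * R ^ 3 ≤ R ^ 4 := by
        have h12 : 0 ≤ R ^ 3 * (R - 4) := mul_nonneg (by positivity) (by linarith)
        nlinarith
      have h13 : (0 : ℝ) ≤ L₃ i := Nat.cast_nonneg _
      have h14 : (L i : ℝ) + 1 ≤ 2 * R ^ 3 * (L₃ i + 1) := by
        refine h6.trans (mul_le_mul_of_nonneg_right ?_ (by linarith))
        calc _ ≤ 2 * R * R ^ 2 := h8
          _ = _ := by ring
      have h15 : 2 * R ^ 3 * ((L₃ i : ℝ) + 1) * 2 ≤ R ^ 4 * (2 * L₃ i + 1) := by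
        have h16 : 0 ≤ (R ^ 4 - 4 * R ^ 3) * ((L₃ i : ℝ) + 1) := mul_nonneg (by linarith) (by linarith)
        have h17 : 0 ≤ R ^ 4 * (L₃ i : ℝ) := by positivity
        nlinarith
      linarith
    have hlog : Real.log (N / (XX a L₃).card) ≤
        Real.log (N / (XX a L).card) + 4 * d * Real.log R := by
      have h1 : (N : ℝ) / (XX a L₃).card ≤ (N / (XX a L).card) * (R ^ 4) ^ d := by
        rw [div_mul_eq_mul_div, div_le_div_iff₀ hX₃pos hPpos, mul_assoc]
        exact mul_le_mul_of_nonneg_left hcard hNpos.le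
      have h2 := Real.log_le_log (by positivity) h1
      rw [Real.log_mul (by positivity) (by positivity), Real.log_pow, Real.log_pow] at h2
      push_cast at h2
      linarith
    have h1 : Real.log (N / (XX a L₃).card) / Real.log R ≤
        Real.log (N / (XX a L).card) / Real.log R + 4 * d := by
      rw [div_add' _ _ _ hlogR.ne']
      exact div_le_div_of_nonneg_right hlog hlogR.le
    have h2 : ((Γ₀ ∪ Λ).card : ℝ) ≤ Γ₀.card + Λ.card := by exact_mod_cast card_union_le Γ₀ Λ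
    have h3 : (Λ.card : ℝ) ≤ M := by exact_mod_cast hΛcard
    linarith
  · intro x hx
    have hx₃ : x ∈ XX a L₃ := hΓ₀' x fun g hg => hx g (mem_union_left _ hg)
    have hsmall : ∀ l ∈ Λ, ‖ψ (l * x) - 1‖ ≤ 1 / R := by
      intro l hl
      refine (norm_ψ_sub_one_le _).trans ?_
      have h1 := hx l (mem_union_right _ hl)
      have h3 := Real.pi_lt_four
      have h4 := Real.pi_pos
      have h5 : 0 ≤ CB.nn (l * x) := CB.nint_nonneg _
      calc 2 * Real.pi * CB.nn (l * x) ≤ 2 * Real.pi * (1 / (8 * R)) :=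
            mul_le_mul_of_nonneg_left h1 (by positivity)
        _ ≤ 2 * 4 * (1 / (8 * R)) := by
            refine mul_le_mul_of_nonneg_right (by linarith) (by positivity)
        _ = 1 / R := by
            field_simp
            norm_num
    have hR1 : 1 / R ≤ 1 / 200 := one_div_le_one_div_of_le (by norm_num) hR200
    refine struct A T hAne hTne K hAA ε hper m hεm hKm x fun g hg => ?_
    have h4nn := four_nn_le (g * x)
    suffices hs : ‖ψ (g * x) - 1‖ ≤ 1 / 50 by linarith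
    rcases hΛ g hg with hgΛ | ⟨e, he, hlt⟩
    · have := hsmall g hgΛ
      linarith
    · obtain ⟨γ', hγ'⟩ : ∃ γ', γ' = g - ∑ l ∈ Λ, (e l : ZMod N) * l := ⟨_, rfl⟩
      rw [← hγ'] at hlt
      have h1 : ‖ψ (γ' * x) - 1‖ ≤ 1 / 100 := by
        have hxm := hx₃
        unfold XX at hxm
        rw [mem_image] at hxm
        obtain ⟨p, hp, hpx⟩ := hxm
        rw [mem_box] at hp
        have hp1 : ∀ i, (W : ℝ) * |(p i : ℝ)| ≤ L₂ i := by
          intro i
          have h3 : |(p i : ℝ)| ≤ L₃ i := by exact_mod_cast hp i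
          have h4 : (W : ℝ) * L₃ i ≤ L₂ i := by exact_mod_cast hL₃1 i
          have h5 : (W : ℝ) * |(p i : ℝ)| ≤ W * L₃ i :=
            mul_le_mul_of_nonneg_left h3 (Nat.cast_nonneg _)
          linarith
        have hp2 : ∀ i, |p i| ≤ 2 * (L₂ i : ℤ) := by
          intro i
          have h3 := hp i
          have h4 : (L₃ i : ℤ) ≤ L₂ i := by exact_mod_cast hL₃le i
          have h5 : (0 : ℤ) ≤ L₂ i := Int.natCast_nonneg _
          linarith
        have h3 := shift_prog a L₂ hinj₂ γ' p (fun i => by exact_mod_cast hp2 i)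
        rw [hpx] at h3
        have hWR : (0 : ℝ) < W := by exact_mod_cast hWpos
        have h4 : ∑ i, |(p i : ℝ)| / (2 * (L₂ i : ℝ) + 1) ≤ d / (2 * W) := by
          calc ∑ i, |(p i : ℝ)| / (2 * (L₂ i : ℝ) + 1) ≤ ∑ _i : Fin d, (1 : ℝ) / (2 * W) := by
                refine sum_le_sum fun i _ => ?_
                rw [div_le_div_iff₀ (by positivity) (by positivity)]
                have := hp1 i
                nlinarith
            _ = d / (2 * W) := by
                rw [sum_const, card_univ, Fintype.card_fin, nsmul_eq_mul]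
                ring
        have h5 : 1 / 2 * (XX a L₂).card * ‖ψ (γ' * x) - 1‖ ≤
            2 * (XX a L₂).card * (d / (2 * W)) := by
          calc 1 / 2 * (XX a L₂).card * ‖ψ (γ' * x) - 1‖ ≤
                ‖∑ y ∈ XX a L₂, ψ (γ' * y)‖ * ‖ψ (γ' * x) - 1‖ :=
                mul_le_mul_of_nonneg_right hlt.le (norm_nonneg _)
            _ ≤ 2 * (XX a L₂).card * ∑ i, |(p i : ℝ)| / (2 * (L₂ i : ℝ) + 1) := h3
            _ ≤ _ := mul_le_mul_of_nonneg_left h4 (by positivity)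
        have h6 : ‖ψ (γ' * x) - 1‖ * (XX a L₂).card ≤ (2 * d / W) * (XX a L₂).card := by
          have e1 : 2 * ((XX a L₂).card : ℝ) * (d / (2 * W)) = (2 * d / W) * (XX a L₂).card / 2 := by
            field_simp
          linarith
        have h7 := le_of_mul_le_mul_right h6 hX₂pos
        refine h7.trans ?_
        rw [hW, hρ]
        push_cast
        rw [div_le_div_iff₀ (by positivity) (by norm_num)]
        linarith
      have e1 : g * x = γ' * x + ∑ l ∈ Λ, (e l : ZMod N) * (l * x) := by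
        rw [hγ', sub_mul, sum_mul]
        have : ∑ l ∈ Λ, (e l : ZMod N) * l * x = ∑ l ∈ Λ, (e l : ZMod N) * (l * x) :=
          sum_congr rfl fun l _ => by ring
        rw [this]
        ring
      rw [e1]
      refine (norm_ψ_sub_one_add _ _).trans ?_
      have h2 : ‖ψ (∑ l ∈ Λ, (e l : ZMod N) * (l * x)) - 1‖ ≤ M * (1 / R) := by
        refine (norm_ψ_sub_one_sum _ _).trans ?_
        calc ∑ l ∈ Λ, ‖ψ ((e l : ZMod N) * (l * x)) - 1‖ ≤ ∑ _l ∈ Λ, 1 / R := by
              refine sum_le_sum fun l hl => ?_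
              exact (norm_mul_sub_one_le _ (he l) _).trans (hsmall l hl)
          _ = Λ.card * (1 / R) := by rw [sum_const, nsmul_eq_mul]
          _ ≤ M * (1 / R) := by
              refine mul_le_mul_of_nonneg_right ?_ (by positivity)
              exact_mod_cast hΛcard
      have h3 : (M : ℝ) * (1 / R) ≤ 1 / 100 := by
        rw [mul_one_div, div_le_div_iff₀ hR0 (by norm_num)]
        linarith
      linarith

end Pool.Agent.V1121.PF.QP
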