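import Pool.Agent.V1121.PF.QP.Final
set_option autoImplicit false

/-! Bohr sets in `2A - 2A` for sets of small doubling in `ℤ/N`: the final form. -/

namespace Pool.Agent.V1121.PF.QP

open Finset Complex Pool.Agent.TH858 Pool.Agent.TH858.GP Pool.Agent.V1121.PF.LC
open scoped ComplexConjugate Pointwise

variable {N : ℕ} [NeZero N]

set_option maxHeartbeats 4000000 in
/-- **Bohr sets in `2A - 2A` for sets of small doubling in `ℤ/N`.** -/
theorem main (A : Finset (ZMod N)) (hA : A.Nonempty) (K : ℝ)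
    (hK : ((A + A).card : ℝ) ≤ K * A.card) (R : ℝ) (hR : 10 ^ 10 * Real.log (2 * K) ^ 4 ≤ R) :
    ∃ Γ : Finset (ZMod N), (Γ.card : ℝ) ≤ 10 ^ 8 * Real.log (2 * K) ^ 4 +
          5 * (Real.log (N / A.card) / Real.log R) ∧
      ∀ x : ZMod N, (∀ g ∈ Γ, CB.nn (g * x) ≤ 1 / (8 * R)) →
        ∃ a₁ ∈ A, ∃ a₂ ∈ A, ∃ a₃ ∈ A, ∃ a₄ ∈ A, x = a₁ + a₂ - a₃ - a₄ := by
  classical
  obtain ⟨hK1, d, a, L, t, hd, hinj, hXX, hcount⟩ := cover_prog A hA K hK
  obtain ⟨κ, hκ⟩ : ∃ κ, κ = Real.log (2 * K) := ⟨_, rfl⟩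
  obtain ⟨lam, hlam⟩ : ∃ lam, lam = 1 + Real.log (1 + κ) := ⟨_, rfl⟩
  rw [← hκ] at hR ⊢
  rw [← hκ, ← hlam] at hcount
  rw [← hκ] at hd
  have hκ69 : (0.69 : ℝ) < κ := by
    have h1 : Real.log 2 ≤ κ := by
      rw [hκ]; exact Real.log_le_log (by norm_num) (by linarith)
    exact lt_of_lt_of_le H112.log_two_gt h1
  have hκ0 : 0 < κ := by linarith
  have hlam1 : 1 ≤ lam := by
    rw [hlam]
    have := Real.log_nonneg (show (1 : ℝ) ≤ 1 + κ by linarith)
    linarith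
  have hlam2 : lam ≤ 1 + κ := by
    rw [hlam]
    have := Real.log_le_sub_one_of_pos (show (0 : ℝ) < 1 + κ by linarith)
    linarith
  -- powers of `κ`
  have q2 : 0.476 ≤ κ ^ 2 := by nlinarith
  have q3 : 0.328 ≤ κ ^ 3 := by
    have e : κ ^ 3 = κ ^ 2 * κ := by ring
    rw [e]; nlinarith
  have q4 : 0.226 ≤ κ ^ 4 := by
    have e : κ ^ 4 = κ ^ 3 * κ := by ring
    rw [e]; nlinarith
  have r1 : κ ≤ 3.05 * κ ^ 4 := by
    have e : κ ^ 4 = κ * κ ^ 3 := by ring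
    rw [e]
    have := mul_le_mul_of_nonneg_left q3 hκ0.le
    linarith
  have r2 : κ ^ 2 ≤ 2.11 * κ ^ 4 := by
    have e : κ ^ 4 = κ ^ 2 * κ ^ 2 := by ring
    rw [e]
    have := mul_le_mul_of_nonneg_left q2 (sq_nonneg κ)
    linarith
  have hκlam : κ * lam ≤ 5.16 * κ ^ 4 := by
    have h1 : κ * lam ≤ κ * (1 + κ) := mul_le_mul_of_nonneg_left hlam2 hκ0.le
    have e : κ * (1 + κ) = κ + κ ^ 2 := by ring
    linarith
  -- the quantity `b`
  obtain ⟨b, hb⟩ : ∃ b, b = K * (2 * K) ^ (17000 * lam) := ⟨_, rfl⟩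
  rw [← hb] at hcount
  have h2K : (1 : ℝ) ≤ 2 * K := by linarith
  have hb1 : 1 ≤ b := by
    rw [hb]
    have h1 : (1 : ℝ) ≤ (2 * K) ^ (17000 * lam) :=
      Real.one_le_rpow h2K (by positivity)
    nlinarith
  have hlogK : Real.log K ≤ κ := by
    rw [hκ]; exact Real.log_le_log (by linarith) (by linarith)
  have hlogK0 : 0 ≤ Real.log K := Real.log_nonneg hK1
  have hlogb : Real.log b ≤ 17001 * (κ * lam) := by
    rw [hb, Real.log_mul (by positivity) (by positivity), Real.log_rpow (by linarith), ← hκ]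
    have h2 : κ ≤ κ * lam := le_mul_of_one_le_right (by linarith) hlam1
    nlinarith
  -- the parameter `m`
  obtain ⟨m, hm⟩ : ∃ m : ℕ, m = ⌈κ⌉₊ + 2 := ⟨_, rfl⟩
  have hm1 : (m : ℝ) ≤ κ + 3 := by
    have h1 := (Nat.ceil_lt_add_one hκ0.le).le
    rw [hm]; push_cast; linarith
  have hm2 : (2 : ℝ) ≤ m := by
    rw [hm]; push_cast
    have : (0 : ℝ) ≤ ⌈κ⌉₊ := Nat.cast_nonneg _
    linarith
  have hm3 : (m : ℝ) ≤ 5.35 * κ := by linarith
  have hKm : 16 * K ≤ 4 ^ m := by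
    have h1 : Real.exp κ ≤ 4 ^ ⌈κ⌉₊ := by
      calc Real.exp κ ≤ Real.exp (⌈κ⌉₊ : ℝ) := Real.exp_le_exp.2 (Nat.le_ceil κ)
        _ = Real.exp 1 ^ ⌈κ⌉₊ := by rw [← Real.exp_nat_mul]; ring_nf
        _ ≤ 4 ^ ⌈κ⌉₊ := pow_le_pow_left₀ (Real.exp_pos _).le (by
            have := Real.exp_one_lt_d9
            linarith) _
    have h2 : Real.exp κ = 2 * K := by rw [hκ]; exact Real.exp_log (by linarith)
    rw [hm, pow_add]
    rw [h2] at h1
    linarith
  -- the parameters `ε` and `k`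
  obtain ⟨ε, hε⟩ : ∃ ε : ℝ, ε = 1 / (32 * m) := ⟨_, rfl⟩
  have hε0 : 0 < ε := by rw [hε]; positivity
  have hε1 : ε ≤ 1 := by
    rw [hε, div_le_one (by positivity)]
    linarith
  have hεm : 32 * ε * m ≤ 1 := by
    rw [hε]
    have : (32 * (1 / (32 * (m : ℝ))) * m) = 1 := by field_simp
    rw [this]
  obtain ⟨Q, hQ⟩ : ∃ Q : ℝ, Q = Real.log (128 * m * K ^ 3) := ⟨_, rfl⟩
  have hQ1 : Q ≤ 14 * κ := by
    rw [hQ, Real.log_mul (by positivity) (by positivity), Real.log_mul (by positivity) (by positivity),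
      Real.log_pow]
    have h1 : Real.log 128 ≤ 4.86 := by
      have h2 : (128 : ℝ) = 2 ^ 7 := by norm_num
      rw [h2, Real.log_pow]
      have := Real.log_two_lt_d9
      push_cast
      linarith
    have h2 := Real.log_le_sub_one_of_pos (show (0 : ℝ) < m by linarith)
    push_cast
    linarith
  have hQ0 : 1 ≤ Q := by
    rw [hQ, Real.le_log_iff_exp_le (by positivity)]
    have h1 := Real.exp_one_lt_d9
    have h2 : (1 : ℝ) ≤ K ^ 3 := one_le_pow₀ hK1
    nlinarith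
  obtain ⟨k, hk⟩ : ∃ k : ℕ, k = ⌈4096 * (m : ℝ) ^ 2 * Q⌉₊ := ⟨_, rfl⟩
  have hk1 : 4096 * (m : ℝ) ^ 2 * Q ≤ k := by rw [hk]; exact Nat.le_ceil _
  have hk0 : 0 < k := by
    rw [hk]
    exact Nat.ceil_pos.2 (by positivity)
  have hkU : (k : ℝ) ≤ 1.65 * 10 ^ 6 * κ ^ 3 := by
    have h1 : (k : ℝ) ≤ 4096 * (m : ℝ) ^ 2 * Q + 1 := by
      rw [hk]; exact (Nat.ceil_lt_add_one (by positivity)).le
    have h2 : (m : ℝ) ^ 2 ≤ (5.35 * κ) ^ 2 := pow_le_pow_left₀ (by positivity) hm3 2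
    have h3 : (m : ℝ) ^ 2 * Q ≤ (5.35 * κ) ^ 2 * (14 * κ) :=
      mul_le_mul h2 hQ1 (by linarith) (by positivity)
    have e : (5.35 * κ) ^ 2 * (14 * κ) = 400.715 * κ ^ 3 := by ring
    rw [e] at h3
    linarith
  have hkexp : 4 * K ^ 3 * Real.exp (-(ε ^ 2 * k / 4)) ≤ ε := by
    have h1 : Q ≤ ε ^ 2 * k / 4 := by
      have e : ε ^ 2 * k / 4 = k / (4096 * (m : ℝ) ^ 2) := by
        rw [hε]; field_simp; norm_num
      rw [e, le_div_iff₀ (by positivity)]
      linarith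
    have h2 : Real.exp (-(ε ^ 2 * k / 4)) ≤ Real.exp (-Q) := Real.exp_le_exp.2 (by linarith)
    have h3 : Real.exp (-Q) = 1 / (128 * m * K ^ 3) := by
      rw [Real.exp_neg, hQ, Real.exp_log (by positivity), one_div]
    rw [h3] at h2
    calc 4 * K ^ 3 * Real.exp (-(ε ^ 2 * k / 4)) ≤ 4 * K ^ 3 * (1 / (128 * m * K ^ 3)) :=
          mul_le_mul_of_nonneg_left h2 (by positivity)
      _ = ε := by
          rw [hε]
          field_simp
          norm_num
  -- the density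
  have hApos : (0 : ℝ) < A.card := by exact_mod_cast hA.card_pos
  have hNpos : (0 : ℝ) < N := Nat.cast_pos.mpr (NeZero.pos N)
  obtain ⟨δ, hδ⟩ : ∃ δ : ℝ, δ = 1 / (2 * b) := ⟨_, rfl⟩
  have hδ0 : 0 < δ := by rw [hδ]; positivity
  have hXXR : ((XX a L).card : ℝ) ≤ A.card := by exact_mod_cast hXX
  have hdens : δ * (XX a L).card ≤ (A.filter fun y => y - t ∈ XX a L).card := by
    rw [hδ, one_div, inv_mul_le_iff₀ (by positivity)]
    exact hXXR.trans hcount
  -- the parameter `M`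
  have hlogM : Real.log (8 * K ^ k / δ) ≤ 1.74 * 10 ^ 6 * κ ^ 4 := by
    have e : 8 * K ^ k / δ = 16 * (b * K ^ k) := by rw [hδ]; field_simp; norm_num
    rw [e, Real.log_mul (by positivity) (by positivity), Real.log_mul (by positivity) (by positivity),
      Real.log_pow]
    have h1 : Real.log 16 ≤ 2.78 := by
      have h2 : (16 : ℝ) = 2 ^ 4 := by norm_num
      rw [h2, Real.log_pow]
      have := Real.log_two_lt_d9
      push_cast
      linarith
    have h2 : (k : ℝ) * Real.log K ≤ (1.65 * 10 ^ 6 * κ ^ 3) * κ :=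
      mul_le_mul hkU hlogK hlogK0 (by positivity)
    have e2 : (1.65 * 10 ^ 6 * κ ^ 3) * κ = 1.65 * 10 ^ 6 * κ ^ 4 := by ring
    rw [e2] at h2
    linarith
  obtain ⟨M, hM⟩ : ∃ M : ℕ, M = ⌈16 * (1.74 * 10 ^ 6 * κ ^ 4)⌉₊ := ⟨_, rfl⟩
  have hM1 : 16 * Real.log (8 * K ^ k / δ) ≤ M := by
    have h1 : 16 * (1.74 * 10 ^ 6 * κ ^ 4) ≤ (M : ℝ) := by rw [hM]; exact Nat.le_ceil _
    linarith
  have hM2 : (M : ℝ) ≤ 2.8 * 10 ^ 7 * κ ^ 4 := by
    have h1 : (M : ℝ) ≤ 16 * (1.74 * 10 ^ 6 * κ ^ 4) + 1 := by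
      rw [hM]; exact (Nat.ceil_lt_add_one (by positivity)).le
    linarith
  have hRd : (d : ℝ) + 2 ≤ R := by linarith
  have hRM : 200 * ((M : ℝ) + 1) ≤ R := by linarith
  obtain ⟨Γ, hΓ, hΓ'⟩ := assemble a L hinj R K δ ε m k M hRd hRM hδ0 hK1 hε0 hε1 hk0 hkexp hεm hKm
    hM1 A t hK hdens
  refine ⟨Γ, hΓ.trans ?_, hΓ'⟩
  -- numerics
  have hfil : ((A.filter fun y => y - t ∈ XX a L).card : ℝ) ≤ (XX a L).card := by
    have h1 : (A.filter fun y => y - t ∈ XX a L).card ≤ (XX a L).card := by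
      refine card_le_card_of_injOn (fun y => y - t) ?_ ?_
      · intro y hy
        rw [mem_coe, mem_filter] at hy
        exact hy.2
      · intro y _ z _ hyz
        exact sub_left_injective hyz
    exact_mod_cast h1
  have hXXpos : (0 : ℝ) < (XX a L).card := by
    have h1 : (0 : ℝ) < 2 * b * (A.filter fun y => y - t ∈ XX a L).card :=
      lt_of_lt_of_le hApos hcount
    have h2 : (0 : ℝ) < (A.filter fun y => y - t ∈ XX a L).card := by
      by_contra h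
      push Not at h
      have : 2 * b * ((A.filter fun y => y - t ∈ XX a L).card : ℝ) ≤ 0 :=
        mul_nonpos_of_nonneg_of_nonpos (by positivity) h
      linarith
    linarith
  have hlog2b : Real.log (2 * b) ≤ 10 ^ 5 * κ ^ 4 := by
    rw [Real.log_mul (by norm_num) (by positivity)]
    have := Real.log_two_lt_d9
    linarith
  have hlogN : Real.log (N / (XX a L).card) ≤ Real.log (N / A.card) + 10 ^ 5 * κ ^ 4 := by
    have h1 : (N : ℝ) / (XX a L).card ≤ (N / A.card) * (2 * b) := by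
      rw [div_mul_eq_mul_div, div_le_div_iff₀ hXXpos hApos, mul_assoc]
      refine mul_le_mul_of_nonneg_left ?_ hNpos.le
      exact hcount.trans (mul_le_mul_of_nonneg_left hfil (by positivity))
    have h2 := Real.log_le_log (by positivity) h1
    rw [Real.log_mul (by positivity) (by positivity)] at h2
    linarith
  have hlogR1 : 1 ≤ Real.log R := by
    rw [Real.le_log_iff_exp_le (by linarith)]
    have h1 := Real.exp_one_lt_d9
    linarith
  have hlogR0 : 0 < Real.log R := by linarith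
  have hmain : Real.log (N / (XX a L).card) / Real.log R ≤
      Real.log (N / A.card) / Real.log R + 10 ^ 5 * κ ^ 4 := by
    calc Real.log (N / (XX a L).card) / Real.log R ≤
          (Real.log (N / A.card) + 10 ^ 5 * κ ^ 4) / Real.log R :=
          div_le_div_of_nonneg_right hlogN hlogR0.le
      _ = Real.log (N / A.card) / Real.log R + (10 ^ 5 * κ ^ 4) / Real.log R := add_div _ _ _
      _ ≤ _ := by
          have := div_le_self (show (0 : ℝ) ≤ 10 ^ 5 * κ ^ 4 by positivity) hlogR1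
          linarith
  linarith

/-- the conclusion of Q1 for sets of doubling at most `exp (c (log (1/α))^{1/4})` -/
theorem question (C : ℝ) (hC : 0 < C) (A : Finset (ZMod N)) (hA : A.Nonempty) (hα : (A.card : ℝ) / N ≤ 1 / 2)
    (K : ℝ) (hK : ((A + A).card : ℝ) ≤ K * A.card)
    (hKC : Real.log (2 * K) ^ 4 ≤ C * Real.log (N / A.card)) :
    ∃ Γ : Finset (ZMod N), (Γ.card : ℝ) ≤ (10 ^ 8 * C + 5) * Real.log (N / A.card) ∧
      ∀ x : ZMod N, (∀ g ∈ Γ, CB.nn (g * x) ≤ 1 / (8 * 10 ^ 10 * (C + 1)) / Real.log (N / A.card)) →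
        ∃ a₁ ∈ A, ∃ a₂ ∈ A, ∃ a₃ ∈ A, ∃ a₄ ∈ A, x = a₁ + a₂ - a₃ - a₄ := by
  classical
  have hApos : (0 : ℝ) < A.card := by exact_mod_cast hA.card_pos
  have hN : (0 : ℝ) < N := Nat.cast_pos.mpr (NeZero.pos N)
  obtain ⟨l, hl⟩ : ∃ l, l = Real.log (N / A.card) := ⟨_, rfl⟩
  rw [← hl] at hKC ⊢
  have hl1 : 0.69 < l := by
    have h1 : (2 : ℝ) ≤ N / A.card := by
      rw [div_le_iff₀ hN] at hα
      rw [le_div_iff₀ hApos]; linarith
    have h2 := Real.log_le_log (by norm_num) h1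
    rw [hl]
    exact lt_of_lt_of_le H112.log_two_gt h2
  have hCl : 0 < C * l := by positivity
  have hR : 10 ^ 10 * Real.log (2 * K) ^ 4 ≤ 10 ^ 10 * (C + 1) * l := by nlinarith
  obtain ⟨Γ, h1, h2⟩ := main A hA K hK _ hR
  refine ⟨Γ, ?_, ?_⟩
  · refine h1.trans ?_
    rw [← hl]
    have hR1 : 1 ≤ Real.log (10 ^ 10 * (C + 1) * l) := by
      rw [Real.le_log_iff_exp_le (by positivity)]
      have h1 := Real.exp_one_lt_d9
      nlinarith
    have h3 : l / Real.log (10 ^ 10 * (C + 1) * l) ≤ l := div_le_self (by linarith) hR1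
    linarith
  · intro x hx
    apply h2 x
    intro g hg
    refine (hx g hg).trans (le_of_eq ?_)
    field_simp

end Pool.Agent.V1121.PF.QP
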