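import Pool.Agent.V1121.PF.QP.CS
import Pool.Agent.V1121.PF.QP.Bern
set_option autoImplicit false

/-! From almost periods to a Bohr-type condition for membership in `2A - 2A`. -/

namespace Pool.Agent.V1121.PF.QP

open Finset Complex Pool.Agent.TH858 Pool.Agent.TH858.GP
open scoped ComplexConjugate Pointwise

variable {N : ℕ} [NeZero N]

/-- the Fourier coefficients of `GG` -/
noncomputable def cf (A : Finset (ZMod N)) (γ : ZMod N) : ℂ :=
  (∑ u ∈ A + A, ψ (-(γ * u))) / N * ((∑ a ∈ A, ψ (γ * a)) / A.card) ^ 2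

theorem ind_fourier (A : Finset (ZMod N)) (y : ZMod N) :
    ((ind A y : ℝ) : ℂ) = ∑ γ : ZMod N, (∑ u ∈ A + A, ψ (-(γ * u))) / N * ψ (γ * y) := by
  classical
  have hN : (N : ℂ) ≠ 0 := by exact_mod_cast (NeZero.ne N)
  have h1 : ∑ γ : ZMod N, (∑ u ∈ A + A, ψ (-(γ * u))) / N * ψ (γ * y) =
      (∑ u ∈ A + A, ∑ γ : ZMod N, ψ ((y - u) * γ)) / N := by
    rw [sum_comm, sum_div]
    refine sum_congr rfl fun γ _ => ?_
    rw [div_mul_eq_mul_div, sum_mul]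
    congr 1
    refine sum_congr rfl fun u _ => ?_
    rw [← ψ_add]
    congr 1
    ring
  rw [h1]
  have h2 : ∀ u ∈ A + A, ∑ γ : ZMod N, ψ ((y - u) * γ) = if u = y then (N : ℂ) else 0 := by
    intro u _
    rw [orth]
    by_cases h : u = y
    · rw [if_pos h, if_pos (by rw [h]; ring)]
    · rw [if_neg h, if_neg]
      intro h0
      exact h (sub_eq_zero.1 h0).symm
  rw [sum_congr rfl h2, sum_ite_eq' (A + A) y]
  unfold ind
  split_ifs <;> simp [hN]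

theorem GG_fourier (A : Finset (ZMod N)) (x : ZMod N) :
    ((GG A x : ℝ) : ℂ) = ∑ γ : ZMod N, cf A γ * ψ (γ * x) := by
  classical
  unfold GG FF
  push_cast
  have h1 : ∀ a ∈ A, (∑ a' ∈ A, ((ind A (x + a + a') : ℝ) : ℂ)) / (A.card : ℂ) =
      ∑ γ : ZMod N, (∑ u ∈ A + A, ψ (-(γ * u))) / N * ψ (γ * (x + a)) * ((∑ a' ∈ A, ψ (γ * a')) / A.card) := by
    intro a _
    rw [sum_congr rfl fun a' _ => ind_fourier A (x + a + a'), sum_comm, sum_div]
    refine sum_congr rfl fun γ _ => ?_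
    rw [mul_div_assoc', mul_sum]
    congr 1
    refine sum_congr rfl fun a' _ => ?_
    rw [mul_assoc, ← ψ_add]
    congr 2
    ring
  rw [sum_congr rfl h1, sum_comm, sum_div]
  refine sum_congr rfl fun γ _ => ?_
  unfold cf
  rw [← sum_mul, ← mul_sum]
  have h2 : ∑ a ∈ A, ψ (γ * (x + a)) = ψ (γ * x) * ∑ a ∈ A, ψ (γ * a) := by
    rw [mul_sum]
    refine sum_congr rfl fun a _ => ?_
    rw [← ψ_add]
    congr 1
    ring
  rw [h2]
  ring

theorem sum_cf (A : Finset (ZMod N)) (hA : A.Nonempty) (K : ℝ) (hK : ((A + A).card : ℝ) ≤ K * A.card) :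
    ∑ γ : ZMod N, ‖cf A γ‖ ≤ K := by
  classical
  have hApos : (0 : ℝ) < A.card := by exact_mod_cast hA.card_pos
  have hN : (0 : ℝ) < N := Nat.cast_pos.mpr (NeZero.pos N)
  have h1 : ∀ γ : ZMod N, ‖cf A γ‖ ≤ (A + A).card / N * (wt A γ / A.card ^ 2) := by
    intro γ
    unfold cf
    rw [norm_mul, norm_div, norm_pow, norm_div, div_pow]
    have e1 : ‖(N : ℂ)‖ = N := by simp
    have e2 : ‖(A.card : ℂ)‖ = A.card := by simp
    rw [e1, e2]
    refine mul_le_mul_of_nonneg_right ?_ (by positivity)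
    refine div_le_div_of_nonneg_right ?_ hN.le
    refine (norm_sum_le _ _).trans ?_
    rw [sum_congr rfl fun u _ => ψ_norm (-(γ * u))]
    simp
  calc ∑ γ : ZMod N, ‖cf A γ‖ ≤ ∑ γ : ZMod N, (A + A).card / N * (wt A γ / A.card ^ 2) :=
        sum_le_sum fun γ _ => h1 γ
    _ = (A + A).card / N * ((∑ γ : ZMod N, wt A γ) / A.card ^ 2) := by rw [← mul_sum, ← sum_div]
    _ = (A + A).card / A.card := by
        rw [sum_wt]
        field_simp
    _ ≤ K := by rw [div_le_iff₀ hApos]; exact hK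

/-- the smoothed function -/
noncomputable def HH (A T : Finset (ZMod N)) (m : ℕ) (x : ZMod N) : ℂ :=
  ∑ γ : ZMod N, cf A γ * ((wt T γ / T.card ^ 2 : ℝ) : ℂ) ^ m * ψ (γ * x)

theorem HH_zero (A T : Finset (ZMod N)) (x : ZMod N) : HH A T 0 x = ((GG A x : ℝ) : ℂ) := by
  rw [GG_fourier]
  unfold HH
  simp

theorem HH_succ (A T : Finset (ZMod N)) (m : ℕ) (x : ZMod N) :
    HH A T (m + 1) x = (∑ p ∈ T ×ˢ T, HH A T m (x + (p.1 - p.2))) / (T.card : ℂ) ^ 2 := by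
  classical
  unfold HH
  rw [sum_comm, sum_div]
  refine sum_congr rfl fun γ _ => ?_
  rw [← mul_sum]
  have h1 : ∑ p ∈ T ×ˢ T, ψ (γ * (x + (p.1 - p.2))) = ψ (γ * x) * ((wt T γ : ℝ) : ℂ) := by
    rw [wt_expand, mul_sum]
    refine sum_congr rfl fun p _ => ?_
    rw [← ψ_add]
    congr 1
    ring
  rw [h1]
  push_cast
  ring

theorem HH_close (A T : Finset (ZMod N)) (hT : T.Nonempty) (ε : ℝ)
    (hper : ∀ z, ∀ s ∈ T, ∀ s' ∈ T, |GG A (z + s) - GG A (z + s')| ≤ 4 * ε) :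
    ∀ (m : ℕ) (x : ZMod N), ‖HH A T m x - ((GG A x : ℝ) : ℂ)‖ ≤ 4 * ε * m := by
  classical
  have hTpos : (0 : ℝ) < T.card := by exact_mod_cast hT.card_pos
  have hTc : (T.card : ℂ) ≠ 0 := by exact_mod_cast hTpos.ne'
  intro m
  induction m with
  | zero => intro x; rw [HH_zero]; simp
  | succ m ih =>
    intro x
    rw [HH_succ]
    have e1 : (∑ p ∈ T ×ˢ T, HH A T m (x + (p.1 - p.2))) / (T.card : ℂ) ^ 2 - ((GG A x : ℝ) : ℂ) =
        (∑ p ∈ T ×ˢ T, (HH A T m (x + (p.1 - p.2)) - ((GG A x : ℝ) : ℂ))) / (T.card : ℂ) ^ 2 := by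
      rw [sum_sub_distrib, sub_div, sum_const, card_product, nsmul_eq_mul]
      push_cast
      rw [← sq]
      congr 1
      rw [mul_div_cancel_left₀]
      exact pow_ne_zero 2 hTc
    rw [e1, norm_div]
    have e2 : ‖(T.card : ℂ) ^ 2‖ = (T.card : ℝ) ^ 2 := by simp
    rw [e2, div_le_iff₀ (by positivity)]
    refine (norm_sum_le _ _).trans ?_
    calc ∑ p ∈ T ×ˢ T, ‖HH A T m (x + (p.1 - p.2)) - ((GG A x : ℝ) : ℂ)‖ ≤
          ∑ _p ∈ T ×ˢ T, (4 * ε * m + 4 * ε) := by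
          refine sum_le_sum fun p hp => ?_
          rw [mem_product] at hp
          have h1 := ih (x + (p.1 - p.2))
          have h2 : ‖((GG A (x + (p.1 - p.2)) : ℝ) : ℂ) - ((GG A x : ℝ) : ℂ)‖ ≤ 4 * ε := by
            rw [← Complex.ofReal_sub, Complex.norm_real]
            have h3 := hper (x - p.2) p.1 hp.1 p.2 hp.2
            have e3 : x - p.2 + p.1 = x + (p.1 - p.2) := by ring
            have e4 : x - p.2 + p.2 = x := by ring
            rw [e3, e4] at h3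
            exact h3
          have e5 : HH A T m (x + (p.1 - p.2)) - ((GG A x : ℝ) : ℂ) =
              (HH A T m (x + (p.1 - p.2)) - ((GG A (x + (p.1 - p.2)) : ℝ) : ℂ)) +
              (((GG A (x + (p.1 - p.2)) : ℝ) : ℂ) - ((GG A x : ℝ) : ℂ)) := by ring
          rw [e5]
          exact (norm_add_le _ _).trans (add_le_add h1 h2)
      _ = 4 * ε * ((m + 1 : ℕ) : ℝ) * (T.card : ℝ) ^ 2 := by
          rw [sum_const, card_product, nsmul_eq_mul]
          push_cast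
          ring

theorem mem_seg_of_nn (c : ZMod N) (h : CB.nn c ≤ 1 / 200) : c ∈ seg N (N / 200) := by
  have hN : (0 : ℝ) < N := Nat.cast_pos.mpr (NeZero.pos N)
  rw [mem_seg]
  refine ⟨(c.val : ℤ) - round ((c.val : ℝ) / N) * N, ?_, ?_⟩
  · have h1 : CB.nn c * N = |(((c.val : ℤ) - round ((c.val : ℝ) / N) * N : ℤ) : ℝ)| := by
      unfold CB.nn CB.nint
      rw [← abs_of_pos hN, ← abs_mul, abs_of_pos hN]
      congr 1
      push_cast
      field_simp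
    have h2 : (|(c.val : ℤ) - round ((c.val : ℝ) / N) * N| : ℤ) * (200 : ℝ) ≤ N := by
      have h3 : CB.nn c * N ≤ 1 / 200 * N := mul_le_mul_of_nonneg_right h hN.le
      rw [h1] at h3
      push_cast at h3 ⊢
      linarith
    have h4 : |(c.val : ℤ) - round ((c.val : ℝ) / N) * N| * 200 ≤ N := by exact_mod_cast h2
    have h5 : ((N / 200 : ℕ) : ℤ) = (N : ℤ) / 200 := by push_cast; rfl
    rw [h5]
    exact (Int.le_ediv_iff_mul_le (by norm_num)).2 h4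
  · push_cast
    rw [ZMod.natCast_zmod_val, ZMod.natCast_self, mul_zero, sub_zero]

set_option maxHeartbeats 1000000 in
/-- membership in `2A - 2A` -/
theorem struct (A T : Finset (ZMod N)) (hA : A.Nonempty) (hT : T.Nonempty) (K : ℝ)
    (hK : ((A + A).card : ℝ) ≤ K * A.card) (ε : ℝ)
    (hper : ∀ z, ∀ s ∈ T, ∀ s' ∈ T, |GG A (z + s) - GG A (z + s')| ≤ 4 * ε)
    (m : ℕ) (hεm : 32 * ε * m ≤ 1) (hKm : 16 * K ≤ 4 ^ m) (x : ZMod N)
    (hx : ∀ g : ZMod N, (T.card : ℝ) / 2 ≤ ‖∑ y ∈ T, ψ (g * y)‖ → CB.nn (g * x) ≤ 1 / 200) :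
    ∃ a₁ ∈ A, ∃ a₂ ∈ A, ∃ a₃ ∈ A, ∃ a₄ ∈ A, x = a₁ + a₂ - a₃ - a₄ := by
  classical
  have hN : (0 : ℝ) < N := Nat.cast_pos.mpr (NeZero.pos N)
  have hTpos : (0 : ℝ) < T.card := by exact_mod_cast hT.card_pos
  apply mem_of_GG
  obtain ⟨Sp, hSp⟩ : ∃ Sp : Finset (ZMod N),
    Sp = univ.filter fun g => (T.card : ℝ) / 2 ≤ ‖∑ y ∈ T, ψ (g * y)‖ := ⟨_, rfl⟩
  obtain ⟨c, hc⟩ : ∃ c : ZMod N → ℂ, c = fun γ => cf A γ * ((wt T γ / T.card ^ 2 : ℝ) : ℂ) ^ m := ⟨_, rfl⟩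
  have hHH : ∀ y, HH A T m y = ∑ γ ∈ Sp, c γ * ψ (γ * y) + ∑ γ ∈ Spᶜ, c γ * ψ (γ * y) := by
    intro y
    rw [sum_add_sum_compl, hc]
    rfl
  have htail : ∀ y, ‖∑ γ ∈ Spᶜ, c γ * ψ (γ * y)‖ ≤ 1 / 16 := by
    intro y
    refine (norm_sum_le _ _).trans ?_
    have h1 : ∀ γ ∈ Spᶜ, ‖c γ * ψ (γ * y)‖ ≤ ‖cf A γ‖ * (1 / 4) ^ m := by
      intro γ hγ
      rw [norm_mul, ψ_norm, mul_one, hc]
      simp only
      rw [norm_mul, norm_pow, Complex.norm_real, Real.norm_of_nonneg (by have := wt_nonneg T γ; positivity)]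
      refine mul_le_mul_of_nonneg_left ?_ (norm_nonneg _)
      refine pow_le_pow_left₀ (by have := wt_nonneg T γ; positivity) ?_ m
      rw [mem_compl, hSp, mem_filter] at hγ
      push Not at hγ
      have h2 := hγ (mem_univ _)
      rw [div_le_iff₀ (by positivity)]
      unfold wt
      have h3 := pow_le_pow_left₀ (norm_nonneg _) h2.le 2
      calc _ ≤ ((T.card : ℝ) / 2) ^ 2 := h3
        _ = _ := by ring
    calc ∑ γ ∈ Spᶜ, ‖c γ * ψ (γ * y)‖ ≤ ∑ γ ∈ Spᶜ, ‖cf A γ‖ * (1 / 4) ^ m := sum_le_sum h1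
      _ ≤ ∑ γ, ‖cf A γ‖ * (1 / 4) ^ m :=
          sum_le_sum_of_subset_of_nonneg (subset_univ _) fun γ _ _ => by positivity
      _ = (∑ γ, ‖cf A γ‖) * (1 / 4) ^ m := by rw [sum_mul]
      _ ≤ K * (1 / 4) ^ m := mul_le_mul_of_nonneg_right (sum_cf A hA K hK) (by positivity)
      _ ≤ 1 / 16 := by
          rw [one_div_pow, mul_one_div, div_le_iff₀ (by positivity)]
          linarith
  have hclose := HH_close A T hT ε hper m
  have hbd : ∀ y, ‖∑ γ ∈ Sp, c γ * ψ (γ * y)‖ ≤ 2 := by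
    intro y
    have h1 : ∑ γ ∈ Sp, c γ * ψ (γ * y) = (HH A T m y - ((GG A y : ℝ) : ℂ)) + ((GG A y : ℝ) : ℂ) -
        ∑ γ ∈ Spᶜ, c γ * ψ (γ * y) := by
      rw [hHH]; ring
    rw [h1]
    refine (norm_sub_le _ _).trans ?_
    have h2 := norm_add_le (HH A T m y - ((GG A y : ℝ) : ℂ)) ((GG A y : ℝ) : ℂ)
    have h3 : ‖((GG A y : ℝ) : ℂ)‖ ≤ 1 := by
      rw [Complex.norm_real, Real.norm_of_nonneg (GG_nonneg A y)]
      exact GG_le_one A y
    have h4 := hclose y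
    have h5 := htail y
    linarith
  have hW : 2 * (N / 200) < N := by
    have := NeZero.pos N
    omega
  have hbern := bernstein (N / 200) hW Sp c (fun γ => γ * x) (fun γ hγ => by
    apply mem_seg_of_nn
    rw [hSp, mem_filter] at hγ
    exact hx γ hγ.2) 2 (fun s => by
    have := hbd (x * s)
    refine le_trans (le_of_eq ?_) this
    congr 1
    refine sum_congr rfl fun γ _ => ?_
    rw [mul_assoc γ x s])
  have hdiff : ‖∑ γ ∈ Sp, c γ * ψ (γ * x) - ∑ γ ∈ Sp, c γ * ψ (γ * 0)‖ ≤ 3 / 10 := by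
    have e : ∑ γ ∈ Sp, c γ * ψ (γ * x) - ∑ γ ∈ Sp, c γ * ψ (γ * 0) =
        ∑ γ ∈ Sp, c γ * (ψ (γ * x) - 1) := by
      rw [← sum_sub_distrib]
      refine sum_congr rfl fun γ _ => ?_
      rw [mul_zero, ψ_zero]
      ring
    rw [e]
    refine hbern.trans ?_
    have h1 : ((N / 200 : ℕ) : ℝ) / N ≤ 1 / 200 := by
      rw [div_le_iff₀ hN]
      have : ((N / 200 : ℕ) : ℝ) ≤ (N : ℝ) / 200 := Nat.cast_div_le
      linarith
    have h2 := Real.pi_lt_d2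
    have h3 := Real.pi_pos
    have h4 : 9 * Real.pi * (((N / 200 : ℕ) : ℝ) / N) ≤ 9 * Real.pi * (1 / 200) :=
      mul_le_mul_of_nonneg_left h1 (by positivity)
    linarith
  -- conclusion
  have h0 : ((GG A 0 : ℝ) : ℂ) - ((GG A x : ℝ) : ℂ) =
      (-(HH A T m 0 - ((GG A 0 : ℝ) : ℂ))) + (HH A T m x - ((GG A x : ℝ) : ℂ)) +
      (∑ γ ∈ Spᶜ, c γ * ψ (γ * 0) - ∑ γ ∈ Spᶜ, c γ * ψ (γ * x)) +
      (-(∑ γ ∈ Sp, c γ * ψ (γ * x) - ∑ γ ∈ Sp, c γ * ψ (γ * 0))) := by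
    rw [hHH 0, hHH x]; ring
  have h1 : ‖((GG A 0 : ℝ) : ℂ) - ((GG A x : ℝ) : ℂ)‖ ≤ 4 * ε * m + 4 * ε * m + (1 / 16 + 1 / 16) + 3 / 10 := by
    rw [h0]
    refine (norm_add_le _ _).trans (add_le_add ((norm_add_le _ _).trans (add_le_add
      ((norm_add_le _ _).trans (add_le_add ?_ (hclose x))) ?_)) ?_)
    · rw [norm_neg]; exact hclose 0
    · exact (norm_sub_le _ _).trans (add_le_add (htail 0) (htail x))
    · rw [norm_neg]; exact hdiff
  rw [← Complex.ofReal_sub, Complex.norm_real, GG_zero A hA] at h1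
  have h2 := (le_abs_self _).trans h1
  have h3 : (4 : ℝ) * ε * m ≤ 1 / 8 := by linarith
  linarith

end Pool.Agent.V1121.PF.QP
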