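import Pool.Agent.V1121.PF.LC.Rudin
set_option autoImplicit false

/-! A weighted local version of Rudin's inequality and of Chang's theorem on `ℤ/N`. -/

namespace Pool.Agent.V1121.PF.QP

open Finset Complex Pool.Agent.TH858.GP Pool.Agent.V1121.PF.LC
open scoped ComplexConjugate

variable {N : ℕ} [NeZero N]

/-- no nontrivial combination with coefficients `-1, 0, 1` correlates with the weight `w` -/
def WDiss (w : ZMod N → ℝ) (Λ : Finset (ZMod N)) (κ : ℝ) : Prop :=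
  ∀ ε : ZMod N → ℤ, (∀ l, |ε l| ≤ 1) → (∃ l ∈ Λ, ε l ≠ 0) →
    ‖∑ y, (w y : ℂ) * ψ ((∑ l ∈ Λ, (ε l : ZMod N) * l) * y)‖ ≤ κ * ∑ y, w y

theorem WDiss.mono {w : ZMod N → ℝ} {Λ Λ' : Finset (ZMod N)} {κ : ℝ} (h : WDiss w Λ κ) (hsub : Λ' ⊆ Λ) :
    WDiss w Λ' κ := by
  classical
  intro ε hε hne
  have h1 := h (fun l => if l ∈ Λ' then ε l else 0) (fun l => by
    show |if l ∈ Λ' then ε l else 0| ≤ 1
    split_ifs
    · exact hε l
    · simp) (by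
    obtain ⟨l, hl, hl0⟩ := hne
    refine ⟨l, hsub hl, ?_⟩
    show (if l ∈ Λ' then ε l else 0) ≠ 0
    rw [if_pos hl]; exact hl0)
  have h2 : ∑ l ∈ Λ, (((if l ∈ Λ' then ε l else 0 : ℤ)) : ZMod N) * l =
      ∑ l ∈ Λ', (ε l : ZMod N) * l := by
    rw [← sum_subset hsub]
    · refine sum_congr rfl fun l hl => ?_
      rw [if_pos hl]
    · intro l _ hl
      rw [if_neg hl]; simp
  rw [h2] at h1
  exact h1

theorem wrp_insert {Λ : Finset (ZMod N)} {l₀ : ZMod N} (h : l₀ ∉ Λ) (b : ZMod N → ℂ)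
    (w : ZMod N → ℝ) (γ : ZMod N) :
    ∑ y, (w y : ℂ) * (ψ (γ * y) * rp (insert l₀ Λ) b y) =
      ∑ y, (w y : ℂ) * (ψ (γ * y) * rp Λ b y) +
        b l₀ * ∑ y, (w y : ℂ) * (ψ ((γ + l₀) * y) * rp Λ b y) +
        conj (b l₀) * ∑ y, (w y : ℂ) * (ψ ((γ - l₀) * y) * rp Λ b y) := by
  rw [mul_sum, mul_sum, ← sum_add_distrib, ← sum_add_distrib]
  refine sum_congr rfl fun y _ => ?_
  unfold rp
  rw [prod_insert h]
  have e1 : ψ ((γ + l₀) * y) = ψ (γ * y) * ψ (l₀ * y) := by rw [← ψ_add]; congr 1; ring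
  have e2 : ψ ((γ - l₀) * y) = ψ (γ * y) * ψ (-(l₀ * y)) := by rw [← ψ_add]; congr 1; ring
  rw [e1, e2]
  ring

theorem wrp_bound (w : ZMod N → ℝ) (κ : ℝ) (W : ℝ) (hκ : 0 ≤ κ * W) (b : ZMod N → ℂ) :
    ∀ (Λ : Finset (ZMod N)) (γ : ZMod N),
      (∀ ε : ZMod N → ℤ, (∀ l, |ε l| ≤ 1) →
        ‖∑ y, (w y : ℂ) * ψ ((γ + ∑ l ∈ Λ, (ε l : ZMod N) * l) * y)‖ ≤ κ * W) →
      ‖∑ y, (w y : ℂ) * (ψ (γ * y) * rp Λ b y)‖ ≤ κ * W * ∏ l ∈ Λ, (1 + 2 * ‖b l‖) := by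
  classical
  intro Λ
  induction Λ using Finset.induction_on with
  | empty =>
    intro γ h
    have h1 := h (fun _ => 0) (fun _ => by simp)
    simp only [sum_empty, add_zero] at h1
    simpa [rp] using h1
  | insert l₀ Λ hl₀ ih =>
    intro γ h
    have h0 := ih γ (fun ε hε => by
      have := h (Function.update ε l₀ 0) (update_abs hε l₀ (by simp))
      rw [sum_update_insert hl₀] at this
      simpa using this)
    have h1 := ih (γ + l₀) (fun ε hε => by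
      have := h (Function.update ε l₀ 1) (update_abs hε l₀ (by simp))
      rw [sum_update_insert hl₀] at this
      have e : γ + l₀ + ∑ l ∈ Λ, (ε l : ZMod N) * l =
          γ + (((1 : ℤ) : ZMod N) * l₀ + ∑ l ∈ Λ, (ε l : ZMod N) * l) := by
        push_cast; ring
      rw [e]; exact this)
    have h2 := ih (γ - l₀) (fun ε hε => by
      have := h (Function.update ε l₀ (-1)) (update_abs hε l₀ (by simp))
      rw [sum_update_insert hl₀] at this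
      have e : γ - l₀ + ∑ l ∈ Λ, (ε l : ZMod N) * l =
          γ + (((-1 : ℤ) : ZMod N) * l₀ + ∑ l ∈ Λ, (ε l : ZMod N) * l) := by
        push_cast; ring
      rw [e]; exact this)
    rw [wrp_insert hl₀, prod_insert hl₀]
    obtain ⟨Q, hQ⟩ : ∃ Q, Q = κ * W * ∏ l ∈ Λ, (1 + 2 * ‖b l‖) := ⟨_, rfl⟩
    rw [← hQ] at h0 h1 h2
    calc _ ≤ ‖∑ y, (w y : ℂ) * (ψ (γ * y) * rp Λ b y)‖ +
          ‖b l₀ * ∑ y, (w y : ℂ) * (ψ ((γ + l₀) * y) * rp Λ b y)‖ +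
          ‖conj (b l₀) * ∑ y, (w y : ℂ) * (ψ ((γ - l₀) * y) * rp Λ b y)‖ := norm_add₃_le
      _ ≤ Q + ‖b l₀‖ * Q + ‖b l₀‖ * Q := by
          rw [norm_mul, norm_mul, Complex.norm_conj]
          gcongr
      _ = κ * W * ((1 + 2 * ‖b l₀‖) * ∏ l ∈ Λ, (1 + 2 * ‖b l‖)) := by
          rw [hQ]; ring

theorem wrp_mean (w : ZMod N → ℝ) (κ : ℝ) (W : ℝ) (hW : W = ∑ y, w y) (hκ : 0 ≤ κ * W) (b : ZMod N → ℂ) :
    ∀ Λ : Finset (ZMod N), WDiss w Λ κ →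
      ‖∑ y, (w y : ℂ) * rp Λ b y - W‖ ≤ κ * W * (∏ l ∈ Λ, (1 + 2 * ‖b l‖) - 1) := by
  classical
  intro Λ
  induction Λ using Finset.induction_on with
  | empty =>
    intro _
    simp [rp, hW]
  | insert l₀ Λ hl₀ ih =>
    intro h
    have h0 := ih (h.mono (subset_insert _ _))
    have h1 := wrp_bound w κ W hκ b Λ l₀ (fun ε hε => by
      have := h (Function.update ε l₀ 1) (update_abs hε l₀ (by simp))
        ⟨l₀, mem_insert_self _ _, by rw [Function.update_self]; norm_num⟩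
      rw [sum_update_insert hl₀, ← hW] at this
      simpa using this)
    have h2 := wrp_bound w κ W hκ b Λ (-l₀) (fun ε hε => by
      have := h (Function.update ε l₀ (-1)) (update_abs hε l₀ (by simp))
        ⟨l₀, mem_insert_self _ _, by rw [Function.update_self]; norm_num⟩
      rw [sum_update_insert hl₀, ← hW] at this
      simpa using this)
    have e := wrp_insert hl₀ b w 0
    simp only [zero_mul, ψ_zero, one_mul, zero_add, zero_sub] at e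
    rw [e, prod_insert hl₀]
    obtain ⟨Q, hQ⟩ : ∃ Q, Q = ∏ l ∈ Λ, (1 + 2 * ‖b l‖) := ⟨_, rfl⟩
    rw [← hQ] at h0 h1 h2 ⊢
    have e2 : ∑ y, (w y : ℂ) * rp Λ b y + b l₀ * ∑ y, (w y : ℂ) * (ψ (l₀ * y) * rp Λ b y) +
        conj (b l₀) * ∑ y, (w y : ℂ) * (ψ (-l₀ * y) * rp Λ b y) - W =
        (∑ y, (w y : ℂ) * rp Λ b y - W) + b l₀ * ∑ y, (w y : ℂ) * (ψ (l₀ * y) * rp Λ b y) +
        conj (b l₀) * ∑ y, (w y : ℂ) * (ψ (-l₀ * y) * rp Λ b y) := by ring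
    rw [e2]
    calc _ ≤ ‖∑ y, (w y : ℂ) * rp Λ b y - W‖ +
          ‖b l₀ * ∑ y, (w y : ℂ) * (ψ (l₀ * y) * rp Λ b y)‖ +
          ‖conj (b l₀) * ∑ y, (w y : ℂ) * (ψ (-l₀ * y) * rp Λ b y)‖ := norm_add₃_le
      _ ≤ κ * W * (Q - 1) + ‖b l₀‖ * (κ * W * Q) + ‖b l₀‖ * (κ * W * Q) := by
          rw [norm_mul, norm_mul, Complex.norm_conj]
          gcongr
      _ = κ * W * ((1 + 2 * ‖b l₀‖) * Q - 1) := by ring

/-- local Rudin inequality -/
theorem wrudin (w : ZMod N → ℝ) (hw : ∀ y, 0 ≤ w y) (Λ : Finset (ZMod N)) (κ : ℝ) (hκ : 0 ≤ κ)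
    (hD : WDiss w Λ κ)
    (h2 : (2 : ℝ) ^ Λ.card * κ ≤ 1) (c : ZMod N → ℂ) (hc : ∀ l ∈ Λ, ‖c l‖ ≤ 1) :
    ∑ y, w y * Real.exp (∑ l ∈ Λ, (c l * ψ (l * y)).re) ≤
      2 * (∑ y, w y) * Real.exp (∑ l ∈ Λ, ‖c l‖ ^ 2) := by
  classical
  obtain ⟨W, hW⟩ : ∃ W, W = ∑ y, w y := ⟨_, rfl⟩
  have hW0 : 0 ≤ W := by rw [hW]; exact sum_nonneg fun y _ => hw y
  obtain ⟨b, hb⟩ : ∃ b : ZMod N → ℂ, b = fun l => c l / (2 * (1 + ‖c l‖ ^ 2 : ℝ)) := ⟨_, rfl⟩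
  have hpos : ∀ l, (0 : ℝ) < 1 + ‖c l‖ ^ 2 := fun l => by positivity
  have hbre : ∀ l y, 2 * (b l * ψ (l * y)).re = (c l * ψ (l * y)).re / (1 + ‖c l‖ ^ 2) := by
    intro l y
    have e : b l * ψ (l * y) = (c l * ψ (l * y)) / ((2 * (1 + ‖c l‖ ^ 2) : ℝ) : ℂ) := by
      rw [hb]; push_cast; ring
    rw [e, Complex.div_ofReal_re]
    have := (hpos l).ne'
    field_simp
  have hbn : ∀ l ∈ Λ, 1 + 2 * ‖b l‖ ≤ 2 := by
    intro l hl
    have e : ‖b l‖ = ‖c l‖ / (2 * (1 + ‖c l‖ ^ 2)) := by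
      have e1 : b l = c l / ((2 * (1 + ‖c l‖ ^ 2) : ℝ) : ℂ) := by rw [hb]; push_cast; rfl
      rw [e1, norm_div, Complex.norm_real, Real.norm_of_nonneg (by positivity)]
    rw [e]
    have h3 : ‖c l‖ / (2 * (1 + ‖c l‖ ^ 2)) ≤ 1 / 2 := by
      rw [div_le_div_iff₀ (by positivity) (by norm_num)]
      nlinarith [hc l hl, norm_nonneg (c l), sq_nonneg (‖c l‖ - 1)]
    linarith
  have hx : ∀ l y, |(c l * ψ (l * y)).re| ≤ ‖c l‖ := by
    intro l y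
    refine (Complex.abs_re_le_norm _).trans ?_
    rw [norm_mul, ψ_norm, mul_one]
  have hexp : ∀ y, Real.exp (∑ l ∈ Λ, (c l * ψ (l * y)).re) ≤
      (∏ l ∈ Λ, (1 + ‖c l‖ ^ 2)) * ∏ l ∈ Λ, (1 + 2 * (b l * ψ (l * y)).re) := by
    intro y
    rw [Real.exp_sum, ← prod_mul_distrib]
    refine prod_le_prod (fun l _ => (Real.exp_pos _).le) fun l hl => ?_
    rw [hbre]
    have h3 := hx l y
    have h4 : |(c l * ψ (l * y)).re| ≤ 1 := h3.trans (hc l hl)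
    have h5 := Real.abs_exp_sub_one_sub_id_le h4
    have h6 := (abs_le.1 h5).2
    have h7 : (c l * ψ (l * y)).re ^ 2 ≤ ‖c l‖ ^ 2 := by
      rw [← sq_abs]
      exact pow_le_pow_left₀ (abs_nonneg _) h3 2
    have h8 : (1 + ‖c l‖ ^ 2) * (1 + (c l * ψ (l * y)).re / (1 + ‖c l‖ ^ 2)) =
        1 + ‖c l‖ ^ 2 + (c l * ψ (l * y)).re := by
      have := (hpos l).ne'
      field_simp
    rw [h8]
    linarith
  have hmean := wrp_mean w κ W hW (mul_nonneg hκ hW0) b Λ hD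
  have hprod : ∏ l ∈ Λ, (1 + 2 * ‖b l‖) ≤ 2 ^ Λ.card := by
    refine (prod_le_prod (fun l _ => by positivity) hbn).trans ?_
    rw [prod_const]
  have hsum : ∑ y, w y * ∏ l ∈ Λ, (1 + 2 * (b l * ψ (l * y)).re) ≤ 2 * W := by
    have e : ((∑ y, w y * ∏ l ∈ Λ, (1 + 2 * (b l * ψ (l * y)).re) - W : ℝ) : ℂ) =
        ∑ y, (w y : ℂ) * rp Λ b y - W := by
      push_cast
      congr 1
      refine sum_congr rfl fun y _ => ?_
      rw [rp_real]
      push_cast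
      rfl
    rw [← e, Complex.norm_real] at hmean
    have h3 := (le_abs_self _).trans hmean
    have h4 : κ * W * (∏ l ∈ Λ, (1 + 2 * ‖b l‖) - 1) ≤ W := by
      have h5 : κ * (∏ l ∈ Λ, (1 + 2 * ‖b l‖) - 1) ≤ 1 := by
        have h6 : κ * (∏ l ∈ Λ, (1 + 2 * ‖b l‖) - 1) ≤ κ * 2 ^ Λ.card :=
          mul_le_mul_of_nonneg_left (by linarith) hκ
        linarith [mul_comm κ ((2 : ℝ) ^ Λ.card)]
      calc κ * W * (∏ l ∈ Λ, (1 + 2 * ‖b l‖) - 1) =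
            (κ * (∏ l ∈ Λ, (1 + 2 * ‖b l‖) - 1)) * W := by ring
        _ ≤ 1 * W := mul_le_mul_of_nonneg_right h5 hW0
        _ = W := one_mul _
    linarith
  have hprod2 : ∏ l ∈ Λ, (1 + ‖c l‖ ^ 2) ≤ Real.exp (∑ l ∈ Λ, ‖c l‖ ^ 2) := by
    rw [Real.exp_sum]
    refine prod_le_prod (fun l _ => (hpos l).le) fun l _ => ?_
    have := Real.add_one_le_exp (‖c l‖ ^ 2)
    linarith
  rw [← hW]
  calc ∑ y, w y * Real.exp (∑ l ∈ Λ, (c l * ψ (l * y)).re)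
      ≤ ∑ y, w y * ((∏ l ∈ Λ, (1 + ‖c l‖ ^ 2)) * ∏ l ∈ Λ, (1 + 2 * (b l * ψ (l * y)).re)) :=
        sum_le_sum fun y _ => mul_le_mul_of_nonneg_left (hexp y) (hw y)
    _ = (∏ l ∈ Λ, (1 + ‖c l‖ ^ 2)) * ∑ y, w y * ∏ l ∈ Λ, (1 + 2 * (b l * ψ (l * y)).re) := by
        rw [mul_sum]
        exact sum_congr rfl fun y _ => by ring
    _ ≤ (∏ l ∈ Λ, (1 + ‖c l‖ ^ 2)) * (2 * W) := by
        refine mul_le_mul_of_nonneg_left hsum (prod_nonneg fun l _ => (hpos l).le)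
    _ ≤ Real.exp (∑ l ∈ Λ, ‖c l‖ ^ 2) * (2 * W) :=
        mul_le_mul_of_nonneg_right hprod2 (by positivity)
    _ = _ := by ring

/-- local Chang inequality -/
theorem wchang (B Λ : Finset (ZMod N)) (w : ZMod N → ℝ) (hw : ∀ y, 0 ≤ w y) (hwB : ∀ y ∈ B, 1 ≤ w y)
    (hB : B.Nonempty) (δ : ℝ) (hδ : 0 < δ)
    (hdens : δ * ∑ y, w y ≤ B.card) (κ : ℝ) (hκ : 0 ≤ κ) (hD : WDiss w Λ κ)
    (h2 : (2 : ℝ) ^ Λ.card * κ ≤ 1) :
    ∑ l ∈ Λ, wt B l ≤ 4 * Real.log (2 / δ) * (B.card : ℝ) ^ 2 := by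
  classical
  have hBp : (0 : ℝ) < B.card := by exact_mod_cast hB.card_pos
  obtain ⟨W, hW⟩ : ∃ W, W = ∑ y, w y := ⟨_, rfl⟩
  have hXp : (0 : ℝ) < W := by
    refine lt_of_lt_of_le hBp ?_
    rw [hW]
    calc (B.card : ℝ) = ∑ _y ∈ B, (1 : ℝ) := by simp
      _ ≤ ∑ y ∈ B, w y := sum_le_sum hwB
      _ ≤ ∑ y, w y := sum_le_sum_of_subset_of_nonneg (subset_univ _) fun y _ _ => hw y
  rw [← hW] at hdens
  obtain ⟨F, hF⟩ : ∃ F : ZMod N → ℂ, F = fun l => ∑ y ∈ B, ψ (l * y) := ⟨_, rfl⟩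
  have hFn : ∀ l, ‖F l‖ ≤ B.card := by
    intro l
    rw [hF]
    refine (norm_sum_le _ _).trans ?_
    rw [sum_congr rfl fun y _ => ψ_norm (l * y)]
    simp
  have hwt : ∀ l, wt B l = ‖F l‖ ^ 2 := fun l => by rw [hF]; rfl
  obtain ⟨c, hc⟩ : ∃ c : ZMod N → ℂ, c = fun l => conj (F l) / ((2 * B.card : ℝ) : ℂ) := ⟨_, rfl⟩
  have hcn : ∀ l, ‖c l‖ = ‖F l‖ / (2 * B.card) := by
    intro l
    rw [hc]
    simp only
    rw [norm_div, Complex.norm_conj, Complex.norm_real, Real.norm_of_nonneg (by positivity)]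
  have hc1 : ∀ l ∈ Λ, ‖c l‖ ≤ 1 := by
    intro l _
    rw [hcn, div_le_one (by positivity)]
    have := hFn l
    linarith
  have hr := wrudin w hw Λ κ hκ hD h2 c hc1
  rw [← hW] at hr
  obtain ⟨S, hS⟩ : ∃ S, S = ∑ l ∈ Λ, wt B l := ⟨_, rfl⟩
  have hS1 : ∑ l ∈ Λ, ‖c l‖ ^ 2 = S / (4 * (B.card : ℝ) ^ 2) := by
    rw [hS, sum_div]
    refine sum_congr rfl fun l _ => ?_
    rw [hcn, hwt, div_pow]
    ring
  obtain ⟨g, hg⟩ : ∃ g : ZMod N → ℝ, g = fun y => ∑ l ∈ Λ, (c l * ψ (l * y)).re := ⟨_, rfl⟩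
  have hgsum : ∑ y ∈ B, g y = S / (2 * B.card) := by
    rw [hg, sum_comm, hS, sum_div]
    refine sum_congr rfl fun l _ => ?_
    rw [← Complex.re_sum, ← mul_sum]
    have e1 : ∑ y ∈ B, ψ (l * y) = F l := by rw [hF]
    have e2 : c l * F l = ((‖F l‖ ^ 2 / (2 * B.card) : ℝ) : ℂ) := by
      rw [hc]
      simp only
      rw [div_mul_eq_mul_div, mul_comm (conj (F l)), Complex.mul_conj, Complex.normSq_eq_norm_sq]
      push_cast
      rfl
    rw [e1, e2, Complex.ofReal_re, hwt]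
  obtain ⟨m, hm⟩ : ∃ m, m = S / (2 * (B.card : ℝ) ^ 2) := ⟨_, rfl⟩
  have hmean : ∑ y ∈ B, g y = B.card * m := by
    rw [hgsum, hm]
    field_simp
  have hjensen : B.card * Real.exp m ≤ ∑ y ∈ B, Real.exp (g y) := by
    have h3 : ∀ y ∈ B, Real.exp m * (g y - m + 1) ≤ Real.exp (g y) := by
      intro y _
      have h4 := Real.add_one_le_exp (g y - m)
      calc Real.exp m * (g y - m + 1) ≤ Real.exp m * Real.exp (g y - m) :=
            mul_le_mul_of_nonneg_left h4 (Real.exp_pos _).le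
        _ = Real.exp (g y) := by rw [← Real.exp_add]; ring_nf
    have h5 := sum_le_sum h3
    rw [← mul_sum, sum_add_distrib, sum_sub_distrib, hmean, sum_const, sum_const] at h5
    simp only [nsmul_eq_mul, mul_one, sub_self, zero_add] at h5
    linarith
  have hsub : ∑ y ∈ B, Real.exp (g y) ≤ ∑ y, w y * Real.exp (g y) := by
    calc ∑ y ∈ B, Real.exp (g y) ≤ ∑ y ∈ B, w y * Real.exp (g y) :=
          sum_le_sum fun y hy => le_mul_of_one_le_left (Real.exp_pos _).le (hwB y hy)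
      _ ≤ _ := sum_le_sum_of_subset_of_nonneg (subset_univ _) fun y _ _ =>
          mul_nonneg (hw y) (Real.exp_pos _).le
  have hr' : ∑ y, w y * Real.exp (g y) ≤ 2 * W * Real.exp (m / 2) := by
    rw [hS1] at hr
    have e : S / (4 * (B.card : ℝ) ^ 2) = m / 2 := by rw [hm]; ring
    rw [e] at hr
    rw [hg]
    exact hr
  have h6 : B.card * Real.exp m ≤ 2 * W * Real.exp (m / 2) := hjensen.trans (hsub.trans hr')
  have h7 : Real.exp (m / 2) ≤ 2 / δ := by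
    have e : Real.exp m = Real.exp (m / 2) * Real.exp (m / 2) := by rw [← Real.exp_add]; ring_nf
    rw [e] at h6
    have h8 : B.card * Real.exp (m / 2) ≤ 2 * W := by
      have h9 : (B.card * Real.exp (m / 2)) * Real.exp (m / 2) ≤ (2 * W) * Real.exp (m / 2) := by
        linarith
      exact le_of_mul_le_mul_right h9 (Real.exp_pos _)
    rw [le_div_iff₀ hδ]
    have h10 : δ * W * Real.exp (m / 2) ≤ 2 * W :=
      (mul_le_mul_of_nonneg_right hdens (Real.exp_pos _).le).trans h8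
    have h11 : (Real.exp (m / 2) * δ) * W ≤ 2 * W := by linarith
    exact le_of_mul_le_mul_right h11 hXp
  have h8 : m / 2 ≤ Real.log (2 / δ) := by
    rw [Real.le_log_iff_exp_le (by positivity)]
    exact h7
  rw [← hS]
  have h9 : S = m * (2 * (B.card : ℝ) ^ 2) := by
    rw [hm]; field_simp
  rw [h9]
  nlinarith [sq_nonneg (B.card : ℝ), mul_nonneg (sq_nonneg (B.card : ℝ)) (sub_nonneg.2 h8)]

end Pool.Agent.V1121.PF.QP
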